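import Pool.Agent.H681R3.TI.Defs

set_option autoImplicit false

namespace Pool.Agent.H681R3.TI
open Finset

/-- translation operator -/
noncomputable def tr (a : UnitAddCircle) : CT →L[ℂ] CT :=
  LinearMap.mkContinuous
    { toFun := fun f => ⟨fun t => f (t - a), by fun_prop⟩
      map_add' := by intro f g; ext t; rfl
      map_smul' := by intro c f; ext t; rfl } 1 (by
    intro f
    rw [one_mul]
    rw [ContinuousMap.norm_le _ (norm_nonneg _)]
    intro t
    exact f.norm_coe_le_norm _)

theorem tr_apply (a : UnitAddCircle) (f : CT) (t : UnitAddCircle) : tr a f t = f (t - a) := rfl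

theorem tr_norm (a : UnitAddCircle) (f : CT) : ‖tr a f‖ ≤ ‖f‖ := by
  rw [ContinuousMap.norm_le _ (norm_nonneg _)]
  intro t
  exact f.norm_coe_le_norm _

theorem tr_tr (a b : UnitAddCircle) (f : CT) : tr a (tr b f) = tr (a + b) f := by
  ext t
  rw [tr_apply, tr_apply, tr_apply, sub_sub]

theorem tr_comm (a b : UnitAddCircle) (f : CT) : tr a (tr b f) = tr b (tr a f) := by
  rw [tr_tr, tr_tr, add_comm]

theorem tr_zero (f : CT) : tr 0 f = f := by
  ext t
  rw [tr_apply, sub_zero]

theorem tr_fourier (a : UnitAddCircle) (n : ℤ) :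
    tr a (fourier n : CT) = ((fourier n : CT) (-a)) • (fourier n : CT) := by
  ext t
  rw [tr_apply, ContinuousMap.smul_apply, smul_eq_mul, fourier_apply, fourier_apply,
    fourier_apply, ← Circle.coe_mul, ← AddCircle.toCircle_add, ← smul_add]
  congr 3
  abel

theorem fcL_tr (a : UnitAddCircle) (k : ℤ) (f : CT) :
    fcL k (tr a f) = (fourier k : CT) (-a) * fcL k f := by
  rw [fcL_apply, fcL_apply]
  unfold fourierCoeff
  rw [← MeasureTheory.integral_const_mul]
  rw [← MeasureTheory.integral_sub_right_eq_self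
    (fun t => (fourier k : CT) (-a) * ((fourier (-k) : CT) t • f t)) a]
  congr 1
  ext t
  rw [tr_apply, smul_eq_mul, smul_eq_mul, ← mul_assoc]
  congr 1
  rw [fourier_apply, fourier_apply, fourier_apply, ← Circle.coe_mul, ← AddCircle.toCircle_add]
  congr 2
  rw [smul_neg, smul_sub, neg_smul, neg_smul]
  abel

theorem tr_mem (E : Set ℤ) (a : UnitAddCircle) (f : CT) (hf : f ∈ CE E) : tr a f ∈ CE E := by
  rw [mem_CE] at *
  intro k hk
  rw [fcL_tr, hf k hk, mul_zero]

/-- average over `0, a, …, (R-1) a` -/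
noncomputable def av (R : ℕ) (a : UnitAddCircle) : CT →L[ℂ] CT :=
  (1 / (R : ℂ)) • ∑ r ∈ range R, tr (r • a)

theorem av_apply (R : ℕ) (a : UnitAddCircle) (f : CT) :
    av R a f = (1 / (R : ℂ)) • ∑ r ∈ range R, tr (r • a) f := by
  unfold av
  rw [_root_.smul_apply, _root_.sum_apply]

theorem av_mem (E : Set ℤ) (R : ℕ) (a : UnitAddCircle) (f : CT) (hf : f ∈ CE E) :
    av R a f ∈ CE E := by
  rw [av_apply]
  exact Submodule.smul_mem _ _ (Submodule.sum_mem _ (fun r _ => tr_mem E _ f hf))

theorem av_norm (R : ℕ) (a : UnitAddCircle) (f : CT) : ‖av R a f‖ ≤ ‖f‖ := by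
  rw [av_apply]
  rcases Nat.eq_zero_or_pos R with h | h
  · subst h; simp
  have hR : (0 : ℝ) < R := by exact_mod_cast h
  rw [norm_smul, norm_div, norm_one, Complex.norm_natCast]
  have h1 : ‖∑ r ∈ range R, tr (r • a) f‖ ≤ R * ‖f‖ := by
    refine (norm_sum_le _ _).trans ?_
    refine (sum_le_sum (fun r _ => tr_norm _ f)).trans ?_
    simp
  calc 1 / (R : ℝ) * _ ≤ 1 / (R : ℝ) * (R * ‖f‖) := by gcongr
    _ = ‖f‖ := by field_simp

theorem av_comm (R : ℕ) (a b : UnitAddCircle) (f : CT) : av R a (av R b f) = av R b (av R a f) := by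
  rw [av_apply, av_apply, av_apply, av_apply]
  simp only [map_smul, map_sum, smul_sum]
  rw [sum_comm]
  apply sum_congr rfl
  intro r _
  apply sum_congr rfl
  intro r' _
  rw [tr_comm]

/-- iterated average over a list of directions -/
noncomputable def AL (R : ℕ) : List UnitAddCircle → CT → CT
  | [], f => f
  | a :: l, f => av R a (AL R l f)

theorem AL_norm (R : ℕ) (l : List UnitAddCircle) (f : CT) : ‖AL R l f‖ ≤ ‖f‖ := by
  induction l with
  | nil => exact le_rfl
  | cons a l ih => exact (av_norm R a _).trans ih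

theorem AL_sub (R : ℕ) (l : List UnitAddCircle) (f g : CT) :
    AL R l (f - g) = AL R l f - AL R l g := by
  induction l with
  | nil => rfl
  | cons a l ih => simp only [AL, ih, map_sub]

theorem AL_add (R : ℕ) (l : List UnitAddCircle) (f g : CT) :
    AL R l (f + g) = AL R l f + AL R l g := by
  induction l with
  | nil => rfl
  | cons a l ih => simp only [AL, ih, map_add]

theorem AL_smul (R : ℕ) (l : List UnitAddCircle) (c : ℂ) (f : CT) :
    AL R l (c • f) = c • AL R l f := by
  induction l with
  | nil => rfl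
  | cons a l ih => simp only [AL, ih, map_smul]

theorem AL_av (R : ℕ) (l : List UnitAddCircle) (b : UnitAddCircle) (f : CT) :
    AL R l (av R b f) = av R b (AL R l f) := by
  induction l with
  | nil => rfl
  | cons a l ih => simp only [AL]; rw [ih, av_comm]

theorem AL_append (R : ℕ) (l l' : List UnitAddCircle) (f : CT) :
    AL R (l ++ l') f = AL R l (AL R l' f) := by
  induction l with
  | nil => rfl
  | cons a l ih => simp only [AL, List.cons_append, ih]

theorem AL_comm (R : ℕ) (l l' : List UnitAddCircle) (f : CT) :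
    AL R l (AL R l' f) = AL R l' (AL R l f) := by
  induction l with
  | nil => rfl
  | cons a l ih =>
    simp only [AL]
    rw [ih, AL_av]

/-- bounded averages -/
def BA (l : List UnitAddCircle) (K : ℝ) (f : CT) : Prop :=
  ∀ R : ℕ, 0 < R → ‖AL R l f‖ ≤ K / R

theorem BA_append_right (l l' : List UnitAddCircle) (K : ℝ) (f : CT) (h : BA l' K f) :
    BA (l ++ l') K f := by
  intro R hR
  rw [AL_append]
  exact (AL_norm R l _).trans (h R hR)

theorem BA_append_left (l l' : List UnitAddCircle) (K : ℝ) (f : CT) (h : BA l K f) :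
    BA (l ++ l') K f := by
  intro R hR
  rw [AL_append, AL_comm]
  exact (AL_norm R l' _).trans (h R hR)

theorem av_diff (R : ℕ) (hR : 0 < R) (a : UnitAddCircle) (f : CT) :
    ‖av R a (f - tr a f)‖ ≤ 2 * ‖f‖ / R := by
  have e : av R a (f - tr a f) = (1 / (R : ℂ)) • (f - tr (R • a) f) := by
    rw [av_apply]
    congr 1
    have : ∀ n : ℕ, ∑ r ∈ range n, tr (r • a) (f - tr a f) = f - tr (n • a) f := by
      intro n
      induction n with
      | zero => simp [tr_zero]
      | succ n ih =>
        rw [sum_range_succ, ih, map_sub, tr_tr, succ_nsmul]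
        abel
    exact this R
  have hR' : (0 : ℝ) < R := by exact_mod_cast hR
  rw [e, norm_smul, norm_div, norm_one, Complex.norm_natCast]
  have h1 : ‖f - tr (R • a) f‖ ≤ 2 * ‖f‖ := by
    refine (norm_sub_le _ _).trans ?_
    have := tr_norm (R • a) f
    linarith
  rw [one_div, div_eq_inv_mul]
  gcongr

/-- the span of the differences -/
noncomputable def DD (E : Set ℤ) : Submodule ℂ CT :=
  Submodule.span ℂ {h | ∃ f ∈ CE E, ∃ a : UnitAddCircle, h = f - tr a f}

theorem DD_BA (E : Set ℤ) (h : CT) (hh : h ∈ DD E) :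
    ∃ (l : List UnitAddCircle) (K : ℝ), 0 ≤ K ∧ BA l K h := by
  unfold DD at hh
  induction hh using Submodule.span_induction with
  | mem h hh =>
    obtain ⟨f, _, a, rfl⟩ := hh
    refine ⟨[a], 2 * ‖f‖, by positivity, ?_⟩
    intro R hR
    exact av_diff R hR a f
  | zero =>
    refine ⟨[], 0, le_rfl, ?_⟩
    intro R hR
    simp [AL]
  | add x y _ _ hx hy =>
    obtain ⟨l, K, hK, hl⟩ := hx
    obtain ⟨l', K', hK', hl'⟩ := hy
    refine ⟨l ++ l', K + K', by positivity, ?_⟩
    intro R hR
    rw [AL_add, add_div]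
    exact (norm_add_le _ _).trans
      (add_le_add (BA_append_left l l' K x hl R hR) (BA_append_right l l' K' y hl' R hR))
  | smul c x _ hx =>
    obtain ⟨l, K, hK, hl⟩ := hx
    refine ⟨l, ‖c‖ * K, by positivity, ?_⟩
    intro R hR
    rw [AL_smul, norm_smul, mul_div_assoc]
    exact mul_le_mul_of_nonneg_left (hl R hR) (norm_nonneg _)

/-- points of the box -/
noncomputable def Box (R : ℕ) : List UnitAddCircle → Finset UnitAddCircle
  | [] => {0}
  | a :: l => open Classical in
      ((range R) ×ˢ (Box R l)).image (fun p => p.1 • a + p.2)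

theorem Box_card (R : ℕ) (l : List UnitAddCircle) : (Box R l).card ≤ R ^ l.length := by
  classical
  induction l with
  | nil => simp [Box]
  | cons a l ih =>
    unfold Box
    refine card_image_le.trans ?_
    rw [card_product, card_range, List.length_cons, pow_succ, mul_comm]
    exact Nat.mul_le_mul_right _ ih

theorem Box_avg (R : ℕ) (hR : 0 < R) (l : List UnitAddCircle) (f : CT) (c : ℝ) :
    ∀ x : UnitAddCircle, (∀ y ∈ Box R l, c ≤ (f (x - y)).re) → c ≤ (AL R l f x).re := by
  classical
  induction l with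
  | nil =>
    intro x h
    have := h 0 (by simp [Box])
    rw [sub_zero] at this
    exact this
  | cons a l ih =>
    intro x h
    have hR' : (0 : ℝ) < R := by exact_mod_cast hR
    have key : ∀ r ∈ range R, c ≤ (AL R l f (x - r • a)).re := by
      intro r hr
      apply ih
      intro y hy
      have := h (r • a + y) (by
        unfold Box
        rw [mem_image]
        exact ⟨(r, y), mem_product.mpr ⟨hr, hy⟩, rfl⟩)
      rw [sub_sub]
      exact this
    have e : AL R (a :: l) f x = (1 / (R : ℂ)) * ∑ r ∈ range R, AL R l f (x - r • a) := by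
      show (av R a (AL R l f)) x = _
      rw [av_apply, ContinuousMap.smul_apply, ContinuousMap.sum_apply, smul_eq_mul]
      rfl
    rw [e]
    have e2 : ((1 / (R : ℂ)) * ∑ r ∈ range R, AL R l f (x - r • a)).re =
        (1 / (R : ℝ)) * ∑ r ∈ range R, (AL R l f (x - r • a)).re := by
      have : (1 / (R : ℂ)) = ((1 / (R : ℝ) : ℝ) : ℂ) := by push_cast; rfl
      rw [this, Complex.re_ofReal_mul, Complex.re_sum]
    rw [e2]
    have h3 : (R : ℝ) * c ≤ ∑ r ∈ range R, (AL R l f (x - r • a)).re := by
      calc (R : ℝ) * c = ∑ r ∈ range R, c := by simp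
        _ ≤ _ := sum_le_sum key
    calc c = 1 / (R : ℝ) * (R * c) := by field_simp
      _ ≤ _ := by gcongr

end Pool.Agent.H681R3.TI
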