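import Pool.Agent.H681R3.TI.Generic
import Pool.Agent.Results.MP_eb9c50_an.SidonNearZero

set_option autoImplicit false

namespace Pool.Agent.H681R3.TI
open Finset Filter Topology

/-- basic neighbourhood of 0 for the Bohr topology of `ℤ` -/
def Bohr (S : Finset UnitAddCircle) (δ : ℝ) : Set ℤ := {k | ∀ a ∈ S, ‖k • a‖ < δ}

theorem Bohr_mono {S S' : Finset UnitAddCircle} {δ δ' : ℝ} (hS : S ⊆ S') (hδ : δ' ≤ δ)
    {k : ℤ} (h : k ∈ Bohr S' δ') : k ∈ Bohr S δ :=
  fun a ha => (h a (hS ha)).trans_le hδ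

theorem Bohr_neg {S : Finset UnitAddCircle} {δ : ℝ} {k : ℤ} (h : k ∈ Bohr S δ) :
    -k ∈ Bohr S δ := by
  intro a ha
  rw [neg_smul, norm_neg]
  exact h a ha

/-- positive part with relative openness and 0 a limit point -/
def QQ (E : Set ℤ) : Prop :=
  (∀ k ∈ E, 0 < k) ∧
  (∀ n ∈ E, ∃ (S : Finset UnitAddCircle) (δ : ℝ), 0 < δ ∧ ∀ k ∈ Bohr S δ, 0 < k → n + k ∈ E) ∧
  (∀ (S : Finset UnitAddCircle) (δ : ℝ), 0 < δ → ∃ k ∈ E, k ∈ Bohr S δ)

theorem QQ_rich (r : ℕ) : ∀ E : Set ℤ, QQ E → FSP E r := by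
  classical
  induction r with
  | zero =>
    intro E _
    refine ⟨fun i => i.elim0, fun i => i.elim0, ?_⟩
    intro A hA
    obtain ⟨i, _⟩ := hA
    exact i.elim0
  | succ r ih =>
    intro E hQ
    obtain ⟨hpos, hopen, hcl⟩ := hQ
    obtain ⟨n, hn, _⟩ := hcl ∅ 1 one_pos
    have hn0 := hpos n hn
    have hQ' : QQ (E ∩ {k | n + k ∈ E}) := by
      refine ⟨fun k hk => hpos k hk.1, ?_, ?_⟩
      · rintro k ⟨hk, hnk⟩
        obtain ⟨S1, δ1, hδ1, h1⟩ := hopen k hk
        obtain ⟨S2, δ2, hδ2, h2⟩ := hopen (n + k) hnk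
        refine ⟨S1 ∪ S2, min δ1 δ2, lt_min hδ1 hδ2, ?_⟩
        intro j hj hj0
        refine ⟨h1 j (Bohr_mono subset_union_left (min_le_left _ _) hj) hj0, ?_⟩
        have := h2 j (Bohr_mono subset_union_right (min_le_right _ _) hj) hj0
        rw [add_assoc] at this
        exact this
      · intro S δ hδ
        obtain ⟨S3, δ3, hδ3, h3⟩ := hopen n hn
        obtain ⟨k, hk, hkB⟩ := hcl (S ∪ S3) (min δ δ3) (lt_min hδ hδ3)
        refine ⟨k, ⟨hk, ?_⟩, Bohr_mono subset_union_left (min_le_left _ _) hkB⟩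
        exact h3 k (Bohr_mono subset_union_right (min_le_right _ _) hkB) (hpos k hk)
    obtain ⟨n', hn', hE'⟩ := ih _ hQ'
    refine ⟨Fin.cons n.toNat n', ?_, ?_⟩
    · intro i
      refine Fin.cases ?_ ?_ i
      · show 0 < n.toNat
        omega
      · intro j
        exact hn' j
    · intro A hA
      let B : Finset (Fin r) := univ.filter (fun i => i.succ ∈ A)
      have hsum : (∑ i ∈ A, (Fin.cons n.toNat n' : Fin (r + 1) → ℕ) i) =
          (if (0 : Fin (r + 1)) ∈ A then n.toNat else 0) + ∑ i ∈ B, n' i := by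
        have h1 : ∑ i ∈ A, (Fin.cons n.toNat n' : Fin (r + 1) → ℕ) i =
            ∑ i, if i ∈ A then (Fin.cons n.toNat n' : Fin (r + 1) → ℕ) i else 0 := by
          rw [sum_ite_mem, univ_inter]
        rw [h1, Fin.sum_univ_succ, sum_filter]
        simp only [Fin.cons_zero, Fin.cons_succ]
      rw [hsum]
      by_cases h0 : (0 : Fin (r + 1)) ∈ A
      · rw [if_pos h0]
        rcases B.eq_empty_or_nonempty with hB | hB
        · rw [hB, sum_empty, add_zero, Int.toNat_of_nonneg hn0.le]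
          exact hn
        · have := (hE' B hB).2
          rw [Nat.cast_add, Int.toNat_of_nonneg hn0.le]
          exact this
      · rw [if_neg h0, zero_add]
        have hB : B.Nonempty := by
          obtain ⟨i, hi⟩ := hA
          obtain ⟨j, rfl⟩ : ∃ j : Fin r, i = j.succ := by
            refine Fin.cases ?_ ?_ i (motive := fun i => i ∈ A → ∃ j : Fin r, i = j.succ) hi
            · intro h; exact absurd h h0
            · intro j _; exact ⟨j, rfl⟩
          exact ⟨j, mem_filter.mpr ⟨mem_univ _, hi⟩⟩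
        exact (hE' B hB).1

/-- one-sided Bohr openness: with `n` the set contains `n + k` for all `k` of the sign of `n`
in a Bohr neighbourhood of 0 -/
def OneSidedOpen (E : Set ℤ) : Prop :=
  ∀ n ∈ E, ∃ (S : Finset UnitAddCircle) (δ : ℝ), 0 < δ ∧ ∀ k ∈ Bohr S δ, 0 < n * k → n + k ∈ E

theorem bohr_open_rich (E : Set ℤ) (hopen : OneSidedOpen E)
    (hcl : ∀ (S : Finset UnitAddCircle) (δ : ℝ), 0 < δ → ∃ k ∈ E, k ∈ Bohr S δ ∧ k ≠ 0) :
    FSRich E ∨ FSRich (-E) := by
  classical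
  have hor : (∀ (S : Finset UnitAddCircle) (δ : ℝ), 0 < δ → ∃ k ∈ E, k ∈ Bohr S δ ∧ 0 < k) ∨
      (∀ (S : Finset UnitAddCircle) (δ : ℝ), 0 < δ → ∃ k ∈ E, k ∈ Bohr S δ ∧ k < 0) := by
    by_contra hcon
    push Not at hcon
    obtain ⟨⟨S1, δ1, hδ1, h1⟩, ⟨S2, δ2, hδ2, h2⟩⟩ := hcon
    obtain ⟨k, hk, hkB, hk0⟩ := hcl (S1 ∪ S2) (min δ1 δ2) (lt_min hδ1 hδ2)
    have a1 := h1 k hk (Bohr_mono subset_union_left (min_le_left _ _) hkB)
    have a2 := h2 k hk (Bohr_mono subset_union_right (min_le_right _ _) hkB)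
    omega
  rcases hor with hor | hor
  · left
    have hQ : QQ (E ∩ {k | 0 < k}) := by
      refine ⟨fun k hk => hk.2, ?_, ?_⟩
      · rintro n ⟨hn, hn0⟩
        obtain ⟨S, δ, hδ, h⟩ := hopen n hn
        refine ⟨S, δ, hδ, ?_⟩
        intro k hk hk0
        have hn0' : 0 < n := hn0
        refine ⟨h k hk (mul_pos hn0' hk0), ?_⟩
        show 0 < n + k
        omega
      · intro S δ hδ
        obtain ⟨k, hk, hkB, hk0⟩ := hor S δ hδ
        exact ⟨k, ⟨hk, hk0⟩, hkB⟩
    intro r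
    obtain ⟨n, hn, hE⟩ := QQ_rich r _ hQ
    exact ⟨n, hn, fun A hA => (hE A hA).1⟩
  · right
    have hQ : QQ ((-E) ∩ {k | 0 < k}) := by
      refine ⟨fun k hk => hk.2, ?_, ?_⟩
      · rintro n ⟨hn, hn0⟩
        obtain ⟨S, δ, hδ, h⟩ := hopen (-n) hn
        refine ⟨S, δ, hδ, ?_⟩
        intro k hk hk0
        have hn0' : 0 < n := hn0
        refine ⟨?_, ?_⟩
        · rw [Set.mem_neg, neg_add]
          exact h (-k) (Bohr_neg hk) (by rw [neg_mul_neg]; exact mul_pos hn0' hk0)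
        · show 0 < n + k
          omega
      · intro S δ hδ
        obtain ⟨k, hk, hkB, hk0⟩ := hor S δ hδ
        refine ⟨-k, ⟨?_, ?_⟩, Bohr_neg hkB⟩
        · rw [Set.mem_neg, neg_neg]; exact hk
        · show 0 < -k
          omega
    intro r
    obtain ⟨n, hn, hE⟩ := QQ_rich r _ hQ
    exact ⟨n, hn, fun A hA => (hE A hA).1⟩

/-- classification of the one-sided Bohr open sets -/
theorem bohr_open_iff (E : Set ℤ) (hopen : OneSidedOpen E) :
    AutomaticContinuity E ↔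
      ∃ (S : Finset UnitAddCircle) (δ : ℝ), 0 < δ ∧ ∀ k ∈ E, k ∈ Bohr S δ → k = 0 := by
  constructor
  · intro hAC
    by_contra hcon
    push Not at hcon
    rcases bohr_open_rich E hopen hcon with h | h
    · exact not_AC E h hAC
    · exact not_AC (-E) h (AC_neg E hAC)
  · rintro ⟨S, δ, hδ, h⟩
    have hmain := (Pool.Agent.Results.MP_eb9c50_an.SidonNearZero.result).1 E S δ hδ (by
      intro f hf
      apply summable_of_ne_finset_zero (s := {0})
      intro k hk
      rw [norm_eq_zero]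
      apply hf k
      rintro ⟨hkE, hkB⟩
      apply hk
      rw [mem_singleton]
      exact h k hkE hkB)
    exact hmain

end Pool.Agent.H681R3.TI
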