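import Pool.Agent.H681R3.TI.Main1

set_option autoImplicit false

/-! Definitions of the problem, and the universal function in `C_E`. -/

namespace Pool.Agent.H681R3.TI
open Finset

/-- `C_E(𝕋)`: continuous functions on the circle whose Fourier coefficients vanish off `E`. -/
def CE (E : Set ℤ) : Submodule ℂ C(UnitAddCircle, ℂ) where
  carrier := {f | ∀ k : ℤ, k ∉ E → fourierCoeff f k = 0}
  add_mem' := by
    intro f g hf hg k hk
    have h : fourierCoeff (⇑(f + g)) k = fourierCoeff f k + fourierCoeff g k := by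
      have := fourierCoeff.add (f := ⇑f) (g := ⇑g)
        (f.continuous.integrable_of_hasCompactSupport (HasCompactSupport.of_compactSpace f))
        (g.continuous.integrable_of_hasCompactSupport (HasCompactSupport.of_compactSpace g))
      rw [ContinuousMap.coe_add, this]; rfl
    rw [h, hf k hk, hg k hk, add_zero]
  zero_mem' := by
    intro k _
    simp [fourierCoeff]
  smul_mem' := by
    intro c f hf k hk
    have h : fourierCoeff (⇑(c • f)) k = c • fourierCoeff f k := by
      rw [ContinuousMap.coe_smul]; exact fourierCoeff.const_smul _ _ _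
    rw [h, hf k hk, smul_zero]

/-- every translation-invariant linear form on `C_E(𝕋)` is continuous -/
def AutomaticContinuity (E : Set ℤ) : Prop :=
  ∀ Φ : CE E →ₗ[ℂ] ℂ,
    (∀ (f g : CE E) (a : UnitAddCircle),
      (∀ t, (g : C(UnitAddCircle, ℂ)) t = (f : C(UnitAddCircle, ℂ)) (t - a)) → Φ g = Φ f) →
    Continuous Φ

/-- the coefficient functional -/
noncomputable def fcL (k : ℤ) : CT →L[ℂ] ℂ :=
  LinearMap.mkContinuous
    { toFun := fun f => fourierCoeff f k
      map_add' := by
        intro f g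
        have := fourierCoeff.add (f := ⇑f) (g := ⇑g)
          (f.continuous.integrable_of_hasCompactSupport (HasCompactSupport.of_compactSpace f))
          (g.continuous.integrable_of_hasCompactSupport (HasCompactSupport.of_compactSpace g))
        rw [ContinuousMap.coe_add, this]; rfl
      map_smul' := by
        intro c f
        rw [ContinuousMap.coe_smul]; exact fourierCoeff.const_smul _ _ _ } 1 (by
    intro f
    rw [one_mul]
    show ‖fourierCoeff f k‖ ≤ ‖f‖
    unfold fourierCoeff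
    refine (MeasureTheory.norm_integral_le_of_norm_le_const (C := ‖f‖) ?_).trans ?_
    · refine Filter.Eventually.of_forall (fun t => ?_)
      rw [norm_smul]
      have h1 : ‖(fourier (-k) : CT) t‖ = 1 := norm_fourier _ _
      rw [h1, one_mul]
      exact f.norm_coe_le_norm t
    · simp)

theorem fcL_apply (k : ℤ) (f : CT) : fcL k f = fourierCoeff f k := rfl

theorem fcL_fourier (k n : ℤ) : fcL k (fourier n : CT) = if k = n then 1 else 0 := by
  rw [fcL_apply, fourierCoeff_fourier]
  by_cases hkn : k = n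
  · subst hkn
    simp
  · rw [if_neg hkn, Pi.single_eq_of_ne hkn]

theorem mem_CE (E : Set ℤ) (f : CT) : f ∈ CE E ↔ ∀ k : ℤ, k ∉ E → fcL k f = 0 := Iff.rfl

theorem fourier_mem_CE (E : Set ℤ) (n : ℤ) (hn : n ∈ E) : (fourier n : CT) ∈ CE E := by
  rw [mem_CE]
  intro k hk
  rw [fcL_fourier, if_neg]
  rintro rfl
  exact hk hn

theorem M0_le_CE (E : Set ℤ) (m : ℕ → ℕ) (S : Finset ℕ)
    (h : ∀ A : Finset ℕ, A ⊆ S → A.Nonempty → ((∑ j ∈ A, m j : ℕ) : ℤ) ∈ E) :
    M0 m S ≤ CE E := by
  unfold M0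
  rw [Submodule.span_le]
  rintro g ⟨A, hA, hne, rfl⟩
  exact fourier_mem_CE E _ (h A hA hne)

theorem M0_mean (m : ℕ → ℕ) (hm : ∀ j, 0 < m j) (S : Finset ℕ) (g : CT) (hg : g ∈ M0 m S) :
    fcL 0 g = 0 := by
  unfold M0 at hg
  induction hg using Submodule.span_induction with
  | mem g hg =>
    obtain ⟨A, hA, hne, rfl⟩ := hg
    rw [fcL_fourier, if_neg]
    intro h
    have h1 : 0 < ∑ j ∈ A, m j := sum_pos (fun j _ => hm j) hne
    omega
  | zero => simp
  | add x y _ _ hx hy => rw [map_add, hx, hy, add_zero]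
  | smul a x _ hx => rw [map_smul, hx, smul_zero]

/-- `E` contains, for every `r`, all nonempty subset sums of some `r` positive integers. -/
def FSRich (E : Set ℤ) : Prop :=
  ∀ r : ℕ, ∃ n : Fin r → ℕ, (∀ i, 0 < n i) ∧
    ∀ A : Finset (Fin r), A.Nonempty → ((∑ i ∈ A, n i : ℕ) : ℤ) ∈ E

/-- blocks `[a j, a (j+1))` with `a (j+1) - a j = Q ^ j`. -/
def blk (Q : ℕ) (j : ℕ) : ℕ := ∑ i ∈ range j, Q ^ i

/-- grouping: a lacunary subsystem of the finite sums. -/
theorem lacunary_subsystem (E : Set ℤ) (hE : FSRich E) (M Q : ℕ) (hQ : 0 < Q) :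
    ∃ m : ℕ → ℕ, (∀ j, 0 < m j) ∧ (∀ j, j + 1 < M → (Q : ℝ) * m j ≤ m (j + 1)) ∧
      ∀ A : Finset ℕ, A ⊆ range M → A.Nonempty → ((∑ j ∈ A, m j : ℕ) : ℤ) ∈ E := by
  obtain ⟨n, hn, hnE⟩ := hE (blk Q M)
  set σ := Tuple.sort n with hσ
  have hmono : Monotone (n ∘ σ) := Tuple.monotone_sort n
  -- extend to ℕ
  let ν : ℕ → ℕ := fun i => if h : i < blk Q M then n (σ ⟨i, h⟩) else 1
  have hνmono : ∀ i j, i ≤ j → j < blk Q M → ν i ≤ ν j := by
    intro i j hij hj
    have hi : i < blk Q M := lt_of_le_of_lt hij hj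
    simp only [ν, hi, hj, dite_true]
    exact hmono (show (⟨i, hi⟩ : Fin _) ≤ ⟨j, hj⟩ from hij)
  have hνpos : ∀ i, 0 < ν i := by
    intro i
    simp only [ν]
    split_ifs with h
    · exact hn _
    · exact Nat.one_pos
  have hblk : ∀ j, blk Q (j + 1) = blk Q j + Q ^ j := by
    intro j
    unfold blk
    rw [sum_range_succ]
  have hblkmono : Monotone (blk Q) := by
    apply monotone_nat_of_le_succ
    intro j
    rw [hblk]
    omega
  let m : ℕ → ℕ := fun j => ∑ i ∈ Ico (blk Q j) (blk Q (j + 1)), ν i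
  refine ⟨m, ?_, ?_, ?_⟩
  · intro j
    apply sum_pos (fun i _ => hνpos i)
    refine ⟨blk Q j, ?_⟩
    rw [mem_Ico]
    refine ⟨le_rfl, ?_⟩
    rw [hblk]
    have : 0 < Q ^ j := by positivity
    omega
  · intro j hj
    have hend : blk Q (j + 2) ≤ blk Q M := hblkmono (by omega)
    have hp1 : 0 < Q ^ j := by positivity
    have hp2 : 0 < Q ^ (j + 1) := by positivity
    have hb1 := hblk j
    have hb2 := hblk (j + 1)
    have hlt : blk Q (j + 1) < blk Q M := by
      have : blk Q (j + 2) = blk Q (j + 1) + Q ^ (j + 1) := hb2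
      omega
    have h1 : m j ≤ Q ^ j * ν (blk Q (j + 1)) := by
      calc m j ≤ ∑ i ∈ Ico (blk Q j) (blk Q (j + 1)), ν (blk Q (j + 1)) := by
            apply sum_le_sum
            intro i hi
            rw [mem_Ico] at hi
            exact hνmono i _ hi.2.le hlt
        _ = Q ^ j * ν (blk Q (j + 1)) := by
            rw [sum_const, Nat.card_Ico, hb1, smul_eq_mul]
            congr 1
            omega
    have h2 : Q ^ (j + 1) * ν (blk Q (j + 1)) ≤ m (j + 1) := by
      calc Q ^ (j + 1) * ν (blk Q (j + 1))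
          = ∑ i ∈ Ico (blk Q (j + 1)) (blk Q (j + 1 + 1)), ν (blk Q (j + 1)) := by
            rw [sum_const, Nat.card_Ico, hb2, smul_eq_mul]
            congr 1
            omega
        _ ≤ m (j + 1) := by
            apply sum_le_sum
            intro i hi
            rw [mem_Ico] at hi
            apply hνmono _ _ hi.1
            have : blk Q (j + 1 + 1) = blk Q (j + 2) := rfl
            omega
    have h3 : Q * m j ≤ m (j + 1) := by
      calc Q * m j ≤ Q * (Q ^ j * ν (blk Q (j + 1))) := Nat.mul_le_mul_left _ h1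
        _ = Q ^ (j + 1) * ν (blk Q (j + 1)) := by rw [pow_succ]; ring
        _ ≤ m (j + 1) := h2
    exact_mod_cast h3
  · intro A hA hne
    -- the set of indices used
    let B : Finset ℕ := A.biUnion (fun j => Ico (blk Q j) (blk Q (j + 1)))
    have hBlt : ∀ i ∈ B, i < blk Q M := by
      intro i hi
      rw [mem_biUnion] at hi
      obtain ⟨j, hj, hij⟩ := hi
      have hjM := mem_range.mp (hA hj)
      rw [mem_Ico] at hij
      exact lt_of_lt_of_le hij.2 (hblkmono (by omega))
    have hdisj : ∀ j ∈ A, ∀ j' ∈ A, j ≠ j' →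
        Disjoint (Ico (blk Q j) (blk Q (j + 1))) (Ico (blk Q j') (blk Q (j' + 1))) := by
      intro j _ j' _ hjj
      rw [disjoint_left]
      intro a ha ha'
      rw [mem_Ico] at ha ha'
      rcases Nat.lt_or_gt_of_ne hjj with h | h
      · have := hblkmono (show j + 1 ≤ j' by omega)
        omega
      · have := hblkmono (show j' + 1 ≤ j by omega)
        omega
    have hsum : ∑ j ∈ A, m j = ∑ i ∈ B, ν i := by
      rw [sum_biUnion hdisj]
    -- pull back to Fin
    let C : Finset (Fin (blk Q M)) := univ.filter (fun i => ((σ.symm i : Fin _) : ℕ) ∈ B)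
    have hsum2 : ∑ i ∈ B, ν i = ∑ i ∈ C, n i := by
      symm
      apply sum_bij (fun (i : Fin (blk Q M)) _ => ((σ.symm i : Fin _) : ℕ))
      · intro i hi
        exact (mem_filter.mp hi).2
      · intro i _ i' _ h
        have := Fin.ext h
        exact σ.symm.injective this
      · intro b hb
        refine ⟨σ ⟨b, hBlt b hb⟩, ?_, ?_⟩
        · rw [mem_filter]
          refine ⟨mem_univ _, ?_⟩
          rw [Equiv.symm_apply_apply]
          exact hb
        · rw [Equiv.symm_apply_apply]
      · intro i hi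
        have hlt : ((σ.symm i : Fin _) : ℕ) < blk Q M := (σ.symm i).2
        simp only [ν, hlt, dite_true, Fin.eta, Equiv.apply_symm_apply]
    rw [hsum, hsum2]
    apply hnE
    obtain ⟨j, hj⟩ := hne
    have hmem : blk Q j ∈ B := by
      rw [mem_biUnion]
      refine ⟨j, hj, ?_⟩
      rw [mem_Ico]
      refine ⟨le_rfl, ?_⟩
      rw [hblk]
      have : 0 < Q ^ j := by positivity
      omega
    refine ⟨σ ⟨blk Q j, hBlt _ hmem⟩, ?_⟩
    rw [mem_filter]
    refine ⟨mem_univ _, ?_⟩
    rw [Equiv.symm_apply_apply]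
    exact hmem

/-- universal function in `C_E` for an FS-rich `E`. -/
theorem univ_CE (E : Set ℤ) (hE : FSRich E) (s : ℕ) (hs : 0 < s) :
    ∃ g ∈ CE E, fcL 0 g = 0 ∧ (∀ t, ‖g t‖ ≤ 3) ∧
      ∀ y : Fin s → UnitAddCircle, ∃ x, ∀ i, 1 / 2 ≤ (g (x + y i)).re := by
  obtain ⟨M, Q, hQ, h⟩ := univ_fun s hs
  obtain ⟨m, hm, hl, hmE⟩ := lacunary_subsystem E hE M Q hQ
  obtain ⟨g, hg, hg3, hgy⟩ := h m hm hl
  exact ⟨g, M0_le_CE E m _ hmE hg, M0_mean m hm _ g hg, hg3, hgy⟩

end Pool.Agent.H681R3.TI
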