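import Pool.Agent.H681R3.TI.Final

set_option autoImplicit false

namespace Pool.Agent.H681R3.TI
open Finset Filter Topology

/-- reflection -/
noncomputable def refl' (f : CT) : CT := ⟨fun t => f (-t), by fun_prop⟩

theorem refl'_apply (f : CT) (t : UnitAddCircle) : refl' f t = f (-t) := rfl

theorem fcL_refl (f : CT) (k : ℤ) : fcL k (refl' f) = fcL (-k) f := by
  rw [fcL_apply, fcL_apply]
  unfold fourierCoeff
  rw [← MeasureTheory.integral_neg_eq_self (fun t => fourier (-(-k)) t • f t)]
  congr 1
  ext t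
  rw [refl'_apply]
  congr 1
  rw [fourier_apply, fourier_apply]
  congr 2
  simp

theorem refl_mem (E : Set ℤ) (f : CT) (hf : f ∈ CE (-E)) : refl' f ∈ CE E := by
  rw [mem_CE] at *
  intro k hk
  rw [fcL_refl]
  apply hf
  simpa using hk

/-- automatic continuity is invariant under reflection -/
theorem AC_neg (E : Set ℤ) (h : AutomaticContinuity E) : AutomaticContinuity (-E) := by
  intro Φ hΦ
  have hE : ∀ f ∈ CE E, refl' f ∈ CE (-E) := by
    intro f hf
    apply refl_mem
    rw [neg_neg]; exact hf
  let σ : CE E →ₗ[ℂ] CE (-E) :=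
    { toFun := fun f => ⟨refl' f, hE f f.2⟩
      map_add' := by intro f g; rfl
      map_smul' := by intro c f; rfl }
  let τ : CE (-E) → CE E := fun f => ⟨refl' f, refl_mem E f f.2⟩
  have hτ : Continuous τ := by
    apply Continuous.subtype_mk
    apply ContinuousMap.continuous_of_continuous_uncurry
    show Continuous (fun q : (CE (-E)) × UnitAddCircle => (q.1 : CT) (-q.2))
    fun_prop
  have hc := h (Φ ∘ₗ σ) (by
    intro f g a hfg
    show Φ (σ g) = Φ (σ f)
    apply hΦ (σ f) (σ g) (-a)
    intro t
    show (g : CT) (-t) = (f : CT) (-(t - -a))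
    rw [hfg]
    congr 1
    abel)
  have e : (Φ : CE (-E) → ℂ) = (Φ ∘ₗ σ) ∘ τ := by
    funext f
    show Φ f = Φ (σ (τ f))
    congr 1
    apply Subtype.ext
    ext t
    show (f : CT) t = (f : CT) (- -t)
    rw [neg_neg]
  rw [e]
  exact hc.comp hτ

/-- `E` contains, for every `r`, all nonempty subset sums of some `r` nonzero integers. -/
def FSZ (E : Set ℤ) : Prop :=
  ∀ r : ℕ, ∃ n : Fin r → ℤ, (∀ i, n i ≠ 0) ∧
    ∀ A : Finset (Fin r), A.Nonempty → ∑ i ∈ A, n i ∈ E

/-- `r` positive integers -/
def FSP (E : Set ℤ) (r : ℕ) : Prop :=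
  ∃ n : Fin r → ℕ, (∀ i, 0 < n i) ∧
    ∀ A : Finset (Fin r), A.Nonempty → ((∑ i ∈ A, n i : ℕ) : ℤ) ∈ E

theorem FSP_of_embedding (E : Set ℤ) (r q : ℕ) (n : Fin q → ℤ)
    (hn : ∀ A : Finset (Fin q), A.Nonempty → ∑ i ∈ A, n i ∈ E)
    (P : Finset (Fin q)) (hP : ∀ i ∈ P, 0 < n i) (hr : r ≤ P.card) : FSP E r := by
  obtain ⟨P', hP', hcard⟩ := exists_subset_card_eq hr
  let e := P'.equivFinOfCardEq hcard
  refine ⟨fun i => (n (e.symm i)).toNat, ?_, ?_⟩
  · intro i
    have := hP _ (hP' (e.symm i).2)
    show 0 < (n (e.symm i)).toNat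
    omega
  · intro A hA
    have h := hn (A.image (fun i => ((e.symm i : P') : Fin q))) (hA.image _)
    rw [sum_image] at h
    · push_cast
      convert h using 1
      apply sum_congr rfl
      intro i _
      have := hP _ (hP' (e.symm i).2)
      exact Int.toNat_of_nonneg this.le
    · intro i _ j _ hij
      exact e.symm.injective (Subtype.ext hij)

theorem FSP_mono (E : Set ℤ) {r r' : ℕ} (h : r ≤ r') (hE : FSP E r') : FSP E r := by
  obtain ⟨n, hn, hnE⟩ := hE
  apply FSP_of_embedding E r r' (fun i => (n i : ℤ)) _ univ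
  · intro i _
    exact_mod_cast hn i
  · simpa using h
  · intro A hA
    have := hnE A hA
    push_cast at this
    exact this

theorem FSZ_split (E : Set ℤ) (h : FSZ E) : FSRich E ∨ FSRich (-E) := by
  have key : ∀ r, FSP E r ∨ FSP (-E) r := by
    intro r
    obtain ⟨n, hn, hnE⟩ := h (r + r)
    have hcard := card_filter_add_card_filter_not (s := (univ : Finset (Fin (r + r))))
      (fun i => 0 < n i)
    rw [card_univ, Fintype.card_fin] at hcard
    rcases Nat.lt_or_ge (univ.filter (fun i : Fin (r + r) => 0 < n i)).card r with hlt | hge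
    · right
      apply FSP_of_embedding (-E) r (r + r) (fun i => - n i) _
        (univ.filter (fun i : Fin (r + r) => ¬ 0 < n i))
      · intro i hi
        have h1 := (mem_filter.mp hi).2
        have h2 := hn i
        omega
      · omega
      · intro A hA
        rw [sum_neg_distrib, Set.mem_neg, neg_neg]
        exact hnE A hA
    · left
      exact FSP_of_embedding E r (r + r) n hnE _ (fun i hi => (mem_filter.mp hi).2) hge
  by_cases hp : ∀ r, FSP E r
  · exact Or.inl hp
  · right
    push Not at hp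
    obtain ⟨r0, hr0⟩ := hp
    intro r
    have : FSP (-E) (max r r0) := by
      rcases key (max r r0) with h | h
      · exact absurd (FSP_mono E (le_max_right _ _) h) hr0
      · exact h
    exact FSP_mono (-E) (le_max_left _ _) this

theorem not_AC_FSZ (E : Set ℤ) (h : FSZ E) : ¬ AutomaticContinuity E := by
  intro hAC
  rcases FSZ_split E h with h | h
  · exact not_AC E h hAC
  · exact not_AC (-E) h (AC_neg E hAC)

/-- Hindman: one cell of every finite cover of the positive integers fails. -/
theorem hindman_cell (k : ℕ) (c : Fin k → Set ℤ) (hc : ∀ n : ℤ, 0 < n → ∃ i, n ∈ c i) :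
    ∃ i, ¬ AutomaticContinuity (c i) := by
  let s : Set (Set ℕ) := Set.range (fun i : Fin k => {n : ℕ | 0 < n ∧ (n : ℤ) ∈ c i})
  have hpos : ∀ n ∈ Hindman.FS (Stream'.const (1 : ℕ)), 0 < n := by
    intro n hn
    have gen : ∀ (a : Stream' ℕ) (m : ℕ), m ∈ Hindman.FS a → (∀ i, 0 < a.get i) → 0 < m := by
      intro a m hm
      induction hm with
      | head' a => intro h; exact h 0
      | tail' a m _ ih => intro h; exact ih (fun i => h (i + 1))
      | cons' a m _ ih =>
        intro h
        have h1 := ih (fun i => h (i + 1))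
        have h2 := h 0
        have h3 : a.head = a.get 0 := rfl
        omega
    exact gen _ n hn (fun i => Nat.one_pos)
  obtain ⟨d, ⟨i, rfl⟩, b, hb⟩ := Hindman.FS_partition_regular (Stream'.const (1 : ℕ)) s
    (Set.finite_range _) (by
      intro n hn
      have h1 := hpos n hn
      obtain ⟨i, hi⟩ := hc n (by exact_mod_cast h1)
      exact ⟨_, ⟨i, rfl⟩, h1, hi⟩)
  refine ⟨i, not_AC _ ?_⟩
  intro r
  refine ⟨fun j => b.get j, ?_, ?_⟩
  · intro j
    have : b.get j ∈ Hindman.FS b := by
      have := Hindman.FS.finsetSum b {(j : ℕ)} (by simp)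
      simpa using this
    exact (hb this).1
  · intro A hA
    have h1 := Hindman.FS.finsetSum b (A.map Fin.valEmbedding) (by simpa using hA)
    rw [sum_map] at h1
    exact (hb h1).2

end Pool.Agent.H681R3.TI
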