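import Pool.Agent.H681R3.TI.Neg

set_option autoImplicit false

namespace Pool.Agent.H681R3.TI
open Finset Filter Topology

/-- a point of infinite order -/
noncomputable def a0 : UnitAddCircle := ((Real.sqrt 2 : ℝ) : UnitAddCircle)

theorem a0_free (n : ℤ) (hn : n ≠ 0) : n • a0 ≠ 0 := by
  intro h
  unfold a0 at h
  rw [← AddCircle.coe_zsmul, AddCircle.coe_eq_zero_iff] at h
  obtain ⟨k, hk⟩ := h
  have hirr : Irrational (Real.sqrt 2) := irrational_sqrt_two
  apply hirr
  refine ⟨(k : ℚ) / n, ?_⟩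
  have hn' : (n : ℝ) ≠ 0 := by exact_mod_cast hn
  rw [zsmul_eq_mul, mul_one, zsmul_eq_mul] at hk
  push_cast
  rw [hk]
  field_simp

theorem fourier_a0 (n : ℤ) (hn : n ≠ 0) : (fourier n : CT) (-a0) ≠ 1 := by
  intro h
  rw [fourier_apply] at h
  have h1 : AddCircle.toCircle (n • (-a0)) = 1 := by
    apply Subtype.ext
    exact h
  have h2 : n • (-a0) = 0 := by
    apply AddCircle.injective_toCircle (T := (1 : ℝ)) one_ne_zero
    rw [h1, AddCircle.toCircle_zero]
  rw [smul_neg, neg_eq_zero] at h2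
  exact a0_free n hn h2

theorem fourier_nsmul (n : ℤ) (r : ℕ) (x : UnitAddCircle) :
    (fourier n : CT) (-(r • x)) = ((fourier n : CT) (-x)) ^ r := by
  induction r with
  | zero => simp
  | succ r ih =>
    rw [pow_succ, ← ih, succ_nsmul, neg_add, fourier_apply, fourier_apply, fourier_apply,
      ← Circle.coe_mul, ← AddCircle.toCircle_add, ← smul_add]

theorem av_fourier (n : ℤ) (hn : n ≠ 0) :
    Tendsto (fun R : ℕ => av R a0 (fourier n : CT)) atTop (𝓝 0) := by
  set z := (fourier n : CT) (-a0) with hz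
  have hz1 : z ≠ 1 := fourier_a0 n hn
  have hzn : ‖z‖ = 1 := norm_fourier _ _
  rw [tendsto_zero_iff_norm_tendsto_zero]
  have hb : ∀ R : ℕ, ‖av R a0 (fourier n : CT)‖ ≤ (2 / ‖z - 1‖) * (1 / (R : ℝ)) := by
    intro R
    have e : av R a0 (fourier n : CT) =
        ((1 / (R : ℂ)) * ((z ^ R - 1) / (z - 1))) • (fourier n : CT) := by
      rw [av_apply]
      have : ∀ r ∈ range R, tr (r • a0) (fourier n : CT) = (z ^ r) • (fourier n : CT) := by
        intro r _
        rw [tr_fourier, fourier_nsmul]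
      rw [sum_congr rfl this, ← sum_smul, smul_smul, geom_sum_eq hz1]
    rw [e, norm_smul, norm_mul, norm_div, norm_one, Complex.norm_natCast, norm_div]
    have h1 : ‖(fourier n : CT)‖ ≤ 1 := by
      rw [ContinuousMap.norm_le _ zero_le_one]
      intro t
      exact (norm_fourier n t).le
    have h2 : ‖z ^ R - 1‖ ≤ 2 := by
      refine (norm_sub_le _ _).trans ?_
      rw [norm_pow, hzn, one_pow, norm_one]
      norm_num
    have h3 : 0 < ‖z - 1‖ := norm_pos_iff.mpr (sub_ne_zero.mpr hz1)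
    calc 1 / (R : ℝ) * (‖z ^ R - 1‖ / ‖z - 1‖) * ‖(fourier n : CT)‖
        ≤ 1 / (R : ℝ) * (2 / ‖z - 1‖) * 1 := by gcongr
      _ = (2 / ‖z - 1‖) * (1 / (R : ℝ)) := by ring
  refine squeeze_zero (fun _ => norm_nonneg _) hb ?_
  have := (tendsto_one_div_atTop_nhds_zero_nat (𝕜 := ℝ)).const_mul (2 / ‖z - 1‖)
  rw [mul_zero] at this
  exact this

theorem av_one (R : ℕ) (hR : 0 < R) : av R a0 (1 : CT) = 1 := by
  have h : ∀ a, tr a (1 : CT) = 1 := by
    intro a; ext t; rfl
  rw [av_apply]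
  simp only [h, sum_const, card_range]
  have : (R : ℂ) ≠ 0 := by exact_mod_cast hR.ne'
  rw [← Nat.cast_smul_eq_nsmul ℂ, smul_smul, one_div, inv_mul_cancel₀ this, one_smul]

/-- constant functions -/
noncomputable def cst (c : ℂ) : CT := ContinuousMap.const _ c

theorem cst_zero : cst 0 = 0 := rfl
theorem cst_one : cst 1 = 1 := rfl
theorem cst_add (c d : ℂ) : cst (c + d) = cst c + cst d := rfl
theorem cst_sub (c d : ℂ) : cst (c - d) = cst c - cst d := rfl
theorem cst_mul (c d : ℂ) : cst (c * d) = c • cst d := rfl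
theorem cst_norm (c : ℂ) : ‖cst c‖ ≤ ‖c‖ := by
  rw [ContinuousMap.norm_le _ (norm_nonneg _)]
  intro t
  exact le_rfl

theorem av_tendsto_span (f : CT) (hf : f ∈ Submodule.span ℂ (Set.range (fourier (T := (1:ℝ))))) :
    Tendsto (fun R : ℕ => av R a0 f) atTop (𝓝 (cst (fcL 0 f))) := by
  induction hf using Submodule.span_induction with
  | mem f hf =>
    obtain ⟨n, rfl⟩ := hf
    rw [fcL_fourier]
    by_cases hn : n = 0
    · subst hn
      rw [if_pos rfl, cst_one]
      have e : (fourier 0 : CT) = 1 := by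
        ext t; simp
      rw [e]
      apply tendsto_const_nhds.congr'
      filter_upwards [eventually_gt_atTop 0] with R hR
      exact (av_one R hR).symm
    · rw [if_neg (fun h => hn h.symm), cst_zero]
      exact av_fourier n hn
  | zero =>
    simp only [map_zero, cst_zero]
    exact tendsto_const_nhds
  | add x y _ _ hx hy =>
    simp only [map_add, cst_add]
    exact hx.add hy
  | smul c x _ hx =>
    simp only [map_smul, smul_eq_mul, cst_mul]
    exact hx.const_smul c

theorem fcL_norm (k : ℤ) (f : CT) : ‖fcL k f‖ ≤ ‖f‖ := by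
  have := (fcL k).le_opNorm f
  have h7 : ‖fcL k‖ ≤ 1 := LinearMap.mkContinuous_norm_le _ zero_le_one _
  calc ‖fcL k f‖ ≤ ‖fcL k‖ * ‖f‖ := this
    _ ≤ 1 * ‖f‖ := by gcongr
    _ = ‖f‖ := one_mul _

theorem av_tendsto (f : CT) :
    Tendsto (fun R : ℕ => av R a0 f) atTop (𝓝 (cst (fcL 0 f))) := by
  rw [Metric.tendsto_atTop]
  intro ε hε
  have hmem : f ∈ (Submodule.span ℂ (Set.range (fourier (T := (1:ℝ))))).topologicalClosure := by
    rw [span_fourier_closure_eq_top]
    trivial
  rw [← SetLike.mem_coe, Submodule.topologicalClosure_coe, Metric.mem_closure_iff] at hmem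
  obtain ⟨g, hg, hfg⟩ := hmem (ε / 4) (by positivity)
  have ht := av_tendsto_span g hg
  rw [Metric.tendsto_atTop] at ht
  obtain ⟨N, hN⟩ := ht (ε / 4) (by positivity)
  refine ⟨N, fun R hR => ?_⟩
  have h1 := hN R hR
  rw [dist_eq_norm] at *
  have e : av R a0 f - cst (fcL 0 f) =
      av R a0 (f - g) + (av R a0 g - cst (fcL 0 g)) - cst (fcL 0 (f - g)) := by
    rw [map_sub, map_sub, cst_sub]
    abel
  rw [e]
  have h2 := av_norm R a0 (f - g)
  have h3 : ‖cst (fcL 0 (f - g))‖ ≤ ‖f - g‖ := (cst_norm _).trans (fcL_norm 0 _)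
  have h4 := norm_sub_le (av R a0 (f - g) + (av R a0 g - cst (fcL 0 g)))
    (cst (fcL 0 (f - g)))
  have h5 := norm_add_le (av R a0 (f - g)) (av R a0 g - cst (fcL 0 g))
  linarith

/-- an automatically continuous `E` has all mean zero functions in the span of differences. -/
theorem AC_cov (E : Set ℤ) (hAC : AutomaticContinuity E) (h : CT) (hh : h ∈ CE E)
    (h0 : fcL 0 h = 0) : h ∈ DD E := by
  by_contra hnot
  obtain ⟨ψ, hψ, hker⟩ := Submodule.exists_le_ker_of_notMem hnot
  let Φ : CE E →ₗ[ℂ] ℂ := ψ ∘ₗ (CE E).subtype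
  have hinv : ∀ (f g : CE E) (a : UnitAddCircle),
      (∀ t, (g : CT) t = (f : CT) (t - a)) → Φ g = Φ f := by
    intro f g a hfg
    have hg : (g : CT) = tr a (f : CT) := by
      ext t
      rw [hfg t, tr_apply]
    have hD : (f : CT) - tr a (f : CT) ∈ DD E := Submodule.subset_span ⟨f, f.2, a, rfl⟩
    have h1 := hker hD
    rw [LinearMap.mem_ker, map_sub] at h1
    show ψ (g : CT) = ψ (f : CT)
    rw [hg]
    exact (sub_eq_zero.mp h1).symm
  have hcont := hAC Φ hinv
  have hlim : Tendsto (fun R : ℕ => (⟨av R a0 h, av_mem E R a0 h hh⟩ : CE E)) atTop (𝓝 0) := by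
    rw [tendsto_subtype_rng]
    have := av_tendsto h
    rw [h0, cst_zero] at this
    exact this
  have h2 := (hcont.tendsto 0).comp hlim
  rw [map_zero] at h2
  have h3 : Tendsto (fun _ : ℕ => ψ h) atTop (𝓝 0) := by
    apply h2.congr'
    filter_upwards [eventually_gt_atTop 0] with R hR
    show ψ (av R a0 h) = ψ h
    rw [av_apply, map_smul, map_sum]
    have h4 : ∀ r ∈ range R, ψ (tr (r • a0) h) = ψ h := by
      intro r _
      have hD : h - tr (r • a0) h ∈ DD E := Submodule.subset_span ⟨h, hh, _, rfl⟩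
      have h1 := hker hD
      rw [LinearMap.mem_ker, map_sub] at h1
      exact (sub_eq_zero.mp h1).symm
    rw [sum_congr rfl h4, sum_const, card_range, nsmul_eq_mul, smul_eq_mul]
    have : (R : ℂ) ≠ 0 := by exact_mod_cast hR.ne'
    field_simp
  exact hψ (tendsto_nhds_unique tendsto_const_nhds h3)

theorem not_AC (E : Set ℤ) (hE : FSRich E) : ¬ AutomaticContinuity E := by
  intro hAC
  apply not_cov E hE
  intro h hh h0
  exact DD_BA E h (AC_cov E hAC h hh h0)

end Pool.Agent.H681R3.TI
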