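import Pool.Agent.H681R3.TI.Extra

set_option autoImplicit false

namespace Pool.Agent.H681R3.TI
open Finset Filter Topology

/-- arbitrarily long homogeneous progressions `d, 2d, …, Ld` are FS-rich. -/
theorem thick_rich (E : Set ℤ)
    (h : ∀ L : ℕ, ∃ d : ℕ, 0 < d ∧ ∀ j : ℕ, 1 ≤ j → j ≤ L → ((d * j : ℕ) : ℤ) ∈ E) :
    FSRich E := by
  intro r
  obtain ⟨d, hd, hE⟩ := h r
  refine ⟨fun _ => d, fun _ => hd, ?_⟩
  intro A hA
  rw [sum_const, smul_eq_mul, mul_comm]
  apply hE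
  · exact hA.card_pos
  · have := card_le_univ A
    rwa [Fintype.card_fin] at this

def VV (L : ℕ) : Set (ℤ → Bool) :=
  ⋃ (d : ℕ) (_ : 0 < d), ⋂ j ∈ Finset.Icc 1 L, {x | x ((d * j : ℕ) : ℤ) = true}

theorem VV_open (L : ℕ) : IsOpen (VV L) := by
  unfold VV
  apply isOpen_iUnion
  intro d
  apply isOpen_iUnion
  intro _
  apply isOpen_biInter_finset
  intro j _
  have : {x : ℤ → Bool | x ((d * j : ℕ) : ℤ) = true} =
      (fun x : ℤ → Bool => x ((d * j : ℕ) : ℤ)) ⁻¹' {true} := rfl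
  rw [this]
  exact (isOpen_discrete _).preimage (continuous_apply _)

theorem VV_dense (L : ℕ) : Dense (VV L) := by
  rw [dense_iff_inter_open]
  intro U hU hne
  obtain ⟨x, hx⟩ := hne
  rw [isOpen_pi_iff] at hU
  obtain ⟨I, u, hu, hIU⟩ := hU x hx
  classical
  let y : ℤ → Bool := fun n => if n ∈ I then x n else true
  obtain ⟨d, hd, hdI⟩ : ∃ d : ℕ, 0 < d ∧ ∀ i ∈ I, |i| < d := by
    refine ⟨(∑ i ∈ I, |i|).toNat + 1, Nat.succ_pos _, ?_⟩
    intro i hi
    have h1 : |i| ≤ ∑ i ∈ I, |i| := single_le_sum (f := fun i => |i|) (fun i _ => abs_nonneg i) hi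
    have h2 : ((∑ i ∈ I, |i|).toNat : ℤ) = ∑ i ∈ I, |i| :=
      Int.toNat_of_nonneg (sum_nonneg (fun i _ => abs_nonneg i))
    push_cast
    omega
  refine ⟨y, hIU ?_, ?_⟩
  · intro i hi
    have hi' : i ∈ I := hi
    have : y i = x i := by simp only [y, if_pos hi']
    rw [this]
    exact (hu i hi').2
  · unfold VV
    simp only [Set.mem_iUnion, Set.mem_iInter]
    refine ⟨d, hd, ?_⟩
    intro j hj
    rw [Finset.mem_Icc] at hj
    show y ((d * j : ℕ) : ℤ) = true
    have hnot : ((d * j : ℕ) : ℤ) ∉ I := by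
      intro hmem
      have h1 := hdI _ hmem
      rw [abs_of_nonneg (by positivity)] at h1
      have h2 : d * j < d := by exact_mod_cast h1
      have h3 : d * 1 ≤ d * j := Nat.mul_le_mul_left _ hj.1
      omega
    simp only [y, if_neg hnot]

/-- for a comeagre set of `E ⊆ ℤ` automatic continuity fails. -/
theorem generic_not_AC :
    ∀ᶠ x : ℤ → Bool in residual (ℤ → Bool), ¬ AutomaticContinuity {n : ℤ | x n = true} := by
  have h : ∀ᶠ x : ℤ → Bool in residual (ℤ → Bool), ∀ L : ℕ, x ∈ VV L := by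
    rw [eventually_countable_forall]
    intro L
    exact residual_of_dense_open (VV_open L) (VV_dense L)
  filter_upwards [h] with x hx
  apply not_AC
  apply thick_rich
  intro L
  have := hx L
  unfold VV at this
  simp only [Set.mem_iUnion, Set.mem_iInter] at this
  obtain ⟨d, hd, hj⟩ := this
  refine ⟨d, hd, ?_⟩
  intro j h1 h2
  exact hj j (Finset.mem_Icc.mpr ⟨h1, h2⟩)

end Pool.Agent.H681R3.TI
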