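import Pool.Agent.H681R3.TI.Univ

set_option autoImplicit false

namespace Pool.Agent.H681R3.TI
open Finset

noncomputable def ck (ρ : ℝ) (k : ℕ) : ℝ := ρ * ((1 + ρ)⁻¹) ^ (k + 1)

noncomputable def G (ρ : ℝ) (K0 : ℕ) (m : ℕ → ℕ) (b K : ℕ) : CT :=
  1 - ∑ k ∈ range (K0 + 1), (ck ρ k : ℂ) • W m b K k

theorem W_zero (m : ℕ → ℕ) (b K : ℕ) : W m b K 0 = 1 := by
  unfold W
  ext t
  have h : (univ.filter (fun p : Fin 0 → Fin K => Function.Injective p)) = univ := by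
    apply filter_true_of_mem
    intro p _
    intro i
    exact i.elim0
  rw [h]
  simp

theorem G_mem (ρ : ℝ) (K0 : ℕ) (m : ℕ → ℕ) (b K : ℕ) :
    G ρ K0 m b K - ((1 - ck ρ 0 : ℝ) : ℂ) • (1 : CT) ∈ M0 m (Ico b (b + K)) := by
  have e : G ρ K0 m b K - ((1 - ck ρ 0 : ℝ) : ℂ) • (1 : CT) =
      - ∑ k ∈ range K0, (ck ρ (k + 1) : ℂ) • W m b K (k + 1) := by
    unfold G
    rw [sum_range_succ', W_zero]
    ext t
    simp
  rw [e]
  apply Submodule.neg_mem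
  apply Submodule.sum_mem
  intro k _
  apply Submodule.smul_mem
  exact W_mem m b K (k + 1) (Nat.succ_pos k)

theorem ck_nonneg {ρ : ℝ} (hρ : 0 < ρ) (k : ℕ) : 0 ≤ ck ρ k := by
  unfold ck
  positivity

theorem geom_id (ρ : ℝ) (hρ : 0 < ρ) (n : ℕ) (w : ℂ) (hD : (1 + ρ - w : ℂ) ≠ 0) :
    ∑ k ∈ range n, (ck ρ k : ℂ) * w ^ k =
      (ρ : ℂ) / (1 + ρ - w) - (ρ : ℂ) / (1 + ρ - w) * (((1 + ρ)⁻¹ : ℝ) * w) ^ n := by
  have h1 : (1 + (ρ : ℂ)) ≠ 0 := by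
    have : (1 + ρ : ℝ) ≠ 0 := by positivity
    exact_mod_cast this
  induction n with
  | zero => simp
  | succ n ih =>
    rw [sum_range_succ, ih]
    unfold ck
    push_cast
    have e : (ρ : ℂ) * (1 + (ρ : ℂ))⁻¹ ^ (n + 1) * w ^ n =
        (ρ : ℂ) / (1 + ρ - w) * ((1 + (ρ : ℂ))⁻¹ * w) ^ n -
        (ρ : ℂ) / (1 + ρ - w) * ((1 + (ρ : ℂ))⁻¹ * w) ^ (n + 1) := by
      rw [pow_succ, pow_succ, mul_pow]
      field_simp
    rw [e]
    ring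

theorem D_bound {ρ : ℝ} (hρ : 0 < ρ) {w : ℂ} (hw : ‖w‖ ≤ 1) : ρ ≤ ‖(1 + ρ - w : ℂ)‖ := by
  have h1 : ‖(1 + ρ : ℂ)‖ = 1 + ρ := by
    have : (1 + ρ : ℂ) = ((1 + ρ : ℝ) : ℂ) := by push_cast; rfl
    rw [this, Complex.norm_real, Real.norm_eq_abs, abs_of_pos (by linarith)]
  have h2 := norm_sub_norm_le (1 + ρ : ℂ) w
  rw [h1] at h2
  linarith

theorem D_bound2 {ρ : ℝ} (hρ : 0 < ρ) {w : ℂ} (hw : ‖w‖ ≤ 1) :
    ‖(1 - w : ℂ)‖ ≤ ‖(1 + ρ - w : ℂ)‖ := by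
  have hre : w.re ≤ 1 := (Complex.re_le_norm w).trans hw
  rw [Complex.norm_def, Complex.norm_def]
  apply Real.sqrt_le_sqrt
  rw [Complex.normSq_apply, Complex.normSq_apply]
  simp
  nlinarith

theorem sum_ck_le {ρ : ℝ} (hρ : 0 < ρ) (n : ℕ) : ∑ k ∈ range n, ck ρ k ≤ 1 := by
  have h : ∀ n : ℕ, ∑ k ∈ range n, ck ρ k = 1 - ((1 + ρ)⁻¹) ^ n := by
    intro n
    induction n with
    | zero => simp
    | succ n ih =>
      rw [sum_range_succ, ih]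
      unfold ck
      have : (1 + ρ) ≠ 0 := by positivity
      rw [pow_succ]
      field_simp
      ring
  rw [h]
  have : (0 : ℝ) ≤ ((1 + ρ)⁻¹) ^ n := by positivity
  linarith

theorem G_err {ρ : ℝ} (hρ : 0 < ρ) (K0 : ℕ) (m : ℕ → ℕ) (b K : ℕ) (hK : 0 < K)
    (t : UnitAddCircle) :
    ‖G ρ K0 m b K t - (1 - wm m b K t) / (1 + ρ - wm m b K t)‖ ≤
      (K0 : ℝ) ^ 2 / K + ((1 + ρ)⁻¹) ^ (K0 + 1) := by
  set w := wm m b K t with hw
  have hwn : ‖w‖ ≤ 1 := wm_norm m b K t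
  have hDn := D_bound hρ hwn
  have hD : (1 + ρ - w : ℂ) ≠ 0 := by
    intro h
    rw [h, norm_zero] at hDn
    linarith
  have hG : G ρ K0 m b K t = 1 - ∑ k ∈ range (K0 + 1), (ck ρ k : ℂ) * W m b K k t := by
    unfold G
    simp [ContinuousMap.sub_apply, ContinuousMap.sum_apply]
  have e : G ρ K0 m b K t - (1 - w) / (1 + ρ - w) =
      - (∑ k ∈ range (K0 + 1), (ck ρ k : ℂ) * (W m b K k t - w ^ k)) +
      (ρ : ℂ) / (1 + ρ - w) * (((1 + ρ)⁻¹ : ℝ) * w) ^ (K0 + 1) := by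
    rw [hG]
    simp only [mul_sub, sum_sub_distrib]
    rw [geom_id ρ hρ (K0 + 1) w hD]
    have : (1 - w) / (1 + ρ - w) = 1 - ρ / (1 + ρ - w) := by
      field_simp
      ring
    rw [this]
    ring
  rw [e]
  refine (norm_add_le _ _).trans ?_
  apply add_le_add
  · rw [norm_neg]
    refine (norm_sum_le _ _).trans ?_
    have hb : ∀ k ∈ range (K0 + 1), ‖(ck ρ k : ℂ) * (W m b K k t - w ^ k)‖ ≤
        ck ρ k * ((K0 : ℝ) ^ 2 / K) := by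
      intro k hk
      rw [mem_range] at hk
      rw [norm_mul, Complex.norm_real, Real.norm_eq_abs, abs_of_nonneg (ck_nonneg hρ k)]
      apply mul_le_mul_of_nonneg_left _ (ck_nonneg hρ k)
      refine (W_close m b K k hK t).trans ?_
      have : (k : ℝ) ≤ K0 := by exact_mod_cast (by omega : k ≤ K0)
      gcongr
    refine (sum_le_sum hb).trans ?_
    rw [← sum_mul]
    have h1 := sum_ck_le hρ (K0 + 1)
    have h2 : (0 : ℝ) ≤ (K0 : ℝ) ^ 2 / K := by positivity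
    nlinarith
  · rw [norm_mul, norm_div, Complex.norm_real, Real.norm_eq_abs, abs_of_pos hρ, norm_pow,
      norm_mul, Complex.norm_real, Real.norm_eq_abs, abs_of_pos (by positivity)]
    have h1 : ρ / ‖(1 + ρ - w : ℂ)‖ ≤ 1 := by
      rw [div_le_one (by linarith)]
      exact hDn
    have h2 : ((1 + ρ)⁻¹ * ‖w‖) ^ (K0 + 1) ≤ ((1 + ρ)⁻¹) ^ (K0 + 1) := by
      apply pow_le_pow_left₀ (by positivity)
      have : (0 : ℝ) < (1 + ρ)⁻¹ := by positivity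
      nlinarith
    have h3 : 0 ≤ ρ / ‖(1 + ρ - w : ℂ)‖ := by positivity
    have h4 : (0 : ℝ) ≤ ((1 + ρ)⁻¹ * ‖w‖) ^ (K0 + 1) := by positivity
    nlinarith

theorem G_norm {ρ δ : ℝ} (hρ : 0 < ρ) (K0 : ℕ) (m : ℕ → ℕ) (b K : ℕ) (hK : 0 < K)
    (hδ : (K0 : ℝ) ^ 2 / K + ((1 + ρ)⁻¹) ^ (K0 + 1) ≤ δ) (t : UnitAddCircle) :
    ‖G ρ K0 m b K t‖ ≤ 1 + δ := by
  have h1 := G_err hρ K0 m b K hK t
  have hwn := wm_norm m b K t
  have hDn := D_bound hρ hwn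
  have h2 : ‖(1 - wm m b K t) / (1 + ρ - wm m b K t)‖ ≤ 1 := by
    rw [norm_div, div_le_one (by linarith)]
    exact D_bound2 hρ hwn
  have h3 := norm_add_le (G ρ K0 m b K t - (1 - wm m b K t) / (1 + ρ - wm m b K t))
    ((1 - wm m b K t) / (1 + ρ - wm m b K t))
  rw [sub_add_cancel] at h3
  linarith

theorem G_small {ρ δ : ℝ} (hρ : 0 < ρ) (K0 : ℕ) (m : ℕ → ℕ) (b K : ℕ) (hK : 0 < K)
    (hδ : (K0 : ℝ) ^ 2 / K + ((1 + ρ)⁻¹) ^ (K0 + 1) ≤ δ) (t : UnitAddCircle) (η : ℝ)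
    (hη : ∀ j : Fin K, ‖(fourier (m (b + j) : ℤ) : CT) t - 1‖ ≤ η) :
    ‖G ρ K0 m b K t‖ ≤ η / ρ + δ := by
  have h1 := G_err hρ K0 m b K hK t
  have hwn := wm_norm m b K t
  have hDn := D_bound hρ hwn
  have hK' : (0 : ℝ) < K := by exact_mod_cast hK
  have hw1 : ‖1 - wm m b K t‖ ≤ η := by
    have e : 1 - wm m b K t = - ((1 / (K : ℂ)) * ∑ j : Fin K,
        ((fourier (m (b + j) : ℤ) : CT) t - 1)) := by
      unfold wm
      rw [sum_sub_distrib, mul_sub]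
      simp only [sum_const, card_univ, Fintype.card_fin, nsmul_eq_mul, mul_one]
      have : (K : ℂ) ≠ 0 := by exact_mod_cast hK.ne'
      rw [one_div, inv_mul_cancel₀ this]
      ring
    rw [e, norm_neg, norm_mul, norm_div, norm_one, Complex.norm_natCast]
    have h5 : ‖∑ j : Fin K, ((fourier (m (b + j) : ℤ) : CT) t - 1)‖ ≤ K * η := by
      refine (norm_sum_le _ _).trans ?_
      refine (sum_le_sum (fun j _ => hη j)).trans ?_
      simp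
    calc 1 / (K : ℝ) * _ ≤ 1 / (K : ℝ) * (K * η) := by gcongr
      _ = η := by field_simp
  have h2 : ‖(1 - wm m b K t) / (1 + ρ - wm m b K t)‖ ≤ η / ρ := by
    rw [norm_div]
    have : 0 ≤ η := (norm_nonneg _).trans hw1
    gcongr
  have h3 := norm_add_le (G ρ K0 m b K t - (1 - wm m b K t) / (1 + ρ - wm m b K t))
    ((1 - wm m b K t) / (1 + ρ - wm m b K t))
  rw [sub_add_cancel] at h3
  linarith

end Pool.Agent.H681R3.TI
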