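import Mathlib

set_option autoImplicit false

/-! Simultaneous approximation along lacunary sequences, and lacunary subsystems of finite sums. -/

namespace Pool.Agent.H681R3.TI

/-- nested intervals: a lacunary sequence hits all targets simultaneously up to `τ`. -/
theorem kron_aux (Q τ : ℝ) (hτ : 0 < τ) (hτ1 : τ ≤ 1 / 2) (hQ : 1 ≤ τ * Q) (M : ℕ) (m : ℕ → ℕ)
    (hm : ∀ j, 0 < m j) (hl : ∀ j, j + 1 < M → Q * m j ≤ m (j + 1)) (β : ℕ → ℝ) :
    ∀ n, n < M → ∃ u : ℝ, ∀ x : ℝ, u ≤ x → x ≤ u + 2 * τ / m n →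
      ∀ j ≤ n, ∃ k : ℤ, |m j * x - β j - k| ≤ τ := by
  intro n
  induction n with
  | zero =>
    intro _
    have h0 : (0 : ℝ) < m 0 := by exact_mod_cast hm 0
    refine ⟨(β 0 - τ) / m 0, ?_⟩
    intro x hx1 hx2 j hj
    obtain rfl : j = 0 := by omega
    refine ⟨0, ?_⟩
    rw [div_le_iff₀ h0] at hx1
    have h3 : (m 0 : ℝ) * x ≤ β 0 + τ := by
      have : (m 0 : ℝ) * x ≤ m 0 * ((β 0 - τ) / m 0 + 2 * τ / m 0) :=
        mul_le_mul_of_nonneg_left hx2 h0.le
      have e : (m 0 : ℝ) * ((β 0 - τ) / m 0 + 2 * τ / m 0) = β 0 + τ := by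
        field_simp
        ring
      linarith
    rw [abs_le]
    push_cast
    constructor <;> nlinarith
  | succ n ih =>
    intro hn
    obtain ⟨u, hu⟩ := ih (by omega)
    have h0 : (0 : ℝ) < m n := by exact_mod_cast hm n
    have h1 : (0 : ℝ) < m (n + 1) := by exact_mod_cast hm (n + 1)
    have hlac := hl n hn
    set k0 : ℤ := ⌈(m (n + 1) : ℝ) * u - β (n + 1) + τ⌉ with hk0
    have hk1 : (m (n + 1) : ℝ) * u - β (n + 1) + τ ≤ k0 := Int.le_ceil _
    have hk2 : (k0 : ℝ) < (m (n + 1) : ℝ) * u - β (n + 1) + τ + 1 := Int.ceil_lt_add_one _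
    refine ⟨(β (n + 1) - τ + k0) / m (n + 1), ?_⟩
    intro x hx1 hx2 j hj
    have hx1' : β (n + 1) - τ + k0 ≤ m (n + 1) * x := by
      rw [div_le_iff₀ h1] at hx1
      linarith
    have hx2' : (m (n + 1) : ℝ) * x ≤ β (n + 1) + τ + k0 := by
      have : (m (n + 1) : ℝ) * x ≤
          m (n + 1) * ((β (n + 1) - τ + k0) / m (n + 1) + 2 * τ / m (n + 1)) :=
        mul_le_mul_of_nonneg_left hx2 h1.le
      have e : (m (n + 1) : ℝ) * ((β (n + 1) - τ + k0) / m (n + 1) + 2 * τ / m (n + 1))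
          = β (n + 1) + τ + k0 := by
        field_simp
        ring
      linarith
    rcases Nat.lt_or_ge n j with hj2 | hj2
    · obtain rfl : j = n + 1 := by omega
      refine ⟨k0, ?_⟩
      rw [abs_le]
      constructor <;> linarith
    · apply hu x _ _ j hj2
      · by_contra hc
        push Not at hc
        have : (m (n + 1) : ℝ) * x < m (n + 1) * u := mul_lt_mul_of_pos_left hc h1
        linarith
      · -- x ≤ u + 2τ / m n
        have h5 : (m (n + 1) : ℝ) * x ≤ m (n + 1) * u + 1 + 2 * τ := by linarith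
        have h6 : x ≤ u + (1 + 2 * τ) / m (n + 1) := by
          have : x = (m (n + 1) : ℝ) * x / m (n + 1) := by field_simp
          rw [this]
          rw [show u + (1 + 2 * τ) / m (n + 1) = (m (n + 1) * u + 1 + 2 * τ) / m (n + 1) by
            field_simp; ring]
          gcongr
        have h7 : (1 + 2 * τ) / m (n + 1) ≤ 2 * τ / m n := by
          rw [div_le_div_iff₀ h1 h0]
          have h8 : (m n : ℝ) ≤ τ * (m (n + 1)) := by
            calc (m n : ℝ) = 1 * m n := by ring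
              _ ≤ (τ * Q) * m n := by gcongr
              _ = τ * (Q * m n) := by ring
              _ ≤ τ * m (n + 1) := by gcongr
          nlinarith
        linarith

theorem norm_coe_le (x τ : ℝ) (k : ℤ) (h : |x - k| ≤ τ) : ‖(x : UnitAddCircle)‖ ≤ τ := by
  have : (x : UnitAddCircle) = ((x - k : ℝ) : UnitAddCircle) := by
    rw [AddCircle.coe_sub]
    have : ((k : ℝ) : UnitAddCircle) = 0 := by
      rw [AddCircle.coe_eq_zero_iff]
      exact ⟨k, by simp⟩
    rw [this, sub_zero]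
  rw [this]
  refine le_trans ?_ h
  rw [UnitAddCircle.norm_eq]
  have := round_le (x - k) 0
  simpa using this

/-- circle version of `kron_aux`. -/
theorem kron (Q τ : ℝ) (hτ : 0 < τ) (hτ1 : τ ≤ 1 / 2) (hQ : 1 ≤ τ * Q) (M : ℕ) (m : ℕ → ℕ)
    (hm : ∀ j, 0 < m j) (hl : ∀ j, j + 1 < M → Q * m j ≤ m (j + 1)) (β : ℕ → UnitAddCircle) :
    ∃ x : UnitAddCircle, ∀ j < M, ‖m j • x - β j‖ ≤ τ := by
  rcases Nat.eq_zero_or_pos M with h0 | h0
  · exact ⟨0, by intro j hj; omega⟩
  have hb : ∀ j, ∃ b : ℝ, (b : UnitAddCircle) = β j := fun j =>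
    QuotientAddGroup.mk_surjective (β j)
  choose b hb using hb
  obtain ⟨u, hu⟩ := kron_aux Q τ hτ hτ1 hQ M m hm hl b (M - 1) (by omega)
  refine ⟨(u : UnitAddCircle), ?_⟩
  intro j hj
  obtain ⟨k, hk⟩ := hu u le_rfl (by
    have : (0 : ℝ) < m (M - 1) := by exact_mod_cast hm _
    have : 0 ≤ 2 * τ / m (M - 1) := by positivity
    linarith) j (by omega)
  rw [← hb j]
  have e : m j • (u : UnitAddCircle) - (b j : UnitAddCircle) =
      ((m j * u - b j : ℝ) : UnitAddCircle) := by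
    rw [AddCircle.coe_sub, ← nsmul_eq_mul, AddCircle.coe_nsmul]
  rw [e]
  exact norm_coe_le _ _ k hk

end Pool.Agent.H681R3.TI
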