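import Pool.Agent.H681R3.TI.Main1

set_option autoImplicit false

namespace Pool.Agent.H681R3.TI
open Finset

/-! ## products with factors close to the real segment -/

/-- partial products -/
noncomputable def qp (L : ℕ → ℂ) (g : ℕ) : ℂ := ∏ i ∈ range g, L i

theorem qp_succ (L : ℕ → ℂ) (g : ℕ) : qp L (g + 1) = qp L g * L g := prod_range_succ _ _

theorem qp_diff (L : ℕ → ℂ) (g : ℕ) : ‖qp L g - qp L (g + 1)‖ = ‖qp L g‖ * ‖1 - L g‖ := by
  rw [qp_succ, ← norm_mul]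
  congr 1
  ring

theorem seq_bound (L : ℕ → ℂ) (η : ℝ) (hη : 0 ≤ η) (hL : ∀ g, ‖L g‖ + ‖1 - L g‖ ≤ 1 + η)
    (a n : ℕ) :
    ∑ i ∈ range n, ‖qp L (a + i) - qp L (a + i + 1)‖ + ‖qp L (a + n)‖ ≤
      ‖qp L a‖ * (1 + η) ^ n := by
  induction n with
  | zero => simp
  | succ n ih =>
    rw [sum_range_succ, qp_diff, ← add_assoc a n 1, qp_succ, norm_mul]
    have h1 := hL (a + n)
    have h2 : ‖qp L (a + n)‖ * ‖1 - L (a + n)‖ + ‖qp L (a + n)‖ * ‖L (a + n)‖ ≤
        ‖qp L (a + n)‖ + η * ‖qp L (a + n)‖ := by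
      have := mul_le_mul_of_nonneg_left h1 (norm_nonneg (qp L (a + n)))
      nlinarith
    have h3 : 0 ≤ ∑ i ∈ range n, ‖qp L (a + i) - qp L (a + i + 1)‖ :=
      sum_nonneg (fun _ _ => norm_nonneg _)
    have h4 : 0 ≤ ‖qp L (a + n)‖ := norm_nonneg _
    calc _ ≤ ∑ i ∈ range n, ‖qp L (a + i) - qp L (a + i + 1)‖ + (‖qp L (a + n)‖ +
          η * ‖qp L (a + n)‖) := by linarith
      _ ≤ (∑ i ∈ range n, ‖qp L (a + i) - qp L (a + i + 1)‖ + ‖qp L (a + n)‖) * (1 + η) := by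
          nlinarith
      _ ≤ (‖qp L a‖ * (1 + η) ^ n) * (1 + η) := by gcongr
      _ = _ := by rw [pow_succ]; ring

theorem qp_norm (L : ℕ → ℂ) (η : ℝ) (hη : 0 ≤ η) (hL : ∀ g, ‖L g‖ + ‖1 - L g‖ ≤ 1 + η)
    (n : ℕ) : ‖qp L n‖ ≤ (1 + η) ^ n := by
  have h := seq_bound L η hη hL 0 n
  have h0 : qp L 0 = 1 := by simp [qp]
  rw [h0, norm_one, one_mul, zero_add] at h
  have h3 : 0 ≤ ∑ i ∈ range n, ‖qp L (0 + i) - qp L (0 + i + 1)‖ :=
    sum_nonneg (fun _ _ => norm_nonneg _)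
  linarith

/-- the point estimate -/
theorem point_est (L : ℕ → ℂ) (η ε1 ε2 : ℝ) (hη : 0 ≤ η) (hε1 : 0 ≤ ε1) (hε2 : 0 ≤ ε2)
    (hL : ∀ g, ‖L g‖ + ‖1 - L g‖ ≤ 1 + η) (p s j : ℕ) (hj : j < p)
    (hpow : (1 + η) ^ (p * s) ≤ 2)
    (e : ℕ → ℂ) (he : ∀ g, ‖e g‖ = 1) (ej : ℂ) (hej : ∀ g, g / s = j → e g = ej)
    (h1 : ∀ g, g < j * s → ‖1 - L g‖ ≤ ε1)
    (i : ℕ) (hi : i < s) (h2 : ‖L (j * s + i)‖ ≤ ε2) :
    ‖∑ g ∈ range (p * s), e g * (qp L g - qp L (g + 1)) - ej‖ ≤ 4 * ε1 * (p * s) + 6 * ε2 := by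
  have hs : 0 < s := by omega
  have hjs : j * s + s ≤ p * s := by
    calc j * s + s = (j + 1) * s := by ring
      _ ≤ p * s := Nat.mul_le_mul_right _ (by omega)
  have hone : 1 ≤ 1 + η := by linarith
  have hq2 : ∀ g, g ≤ p * s → ‖qp L g‖ ≤ 2 := by
    intro g hg
    exact (qp_norm L η hη hL g).trans ((pow_le_pow_right₀ hone hg).trans hpow)
  -- first part
  have hA : ∑ g ∈ range (j * s), ‖qp L g - qp L (g + 1)‖ ≤ 2 * ε1 * (p * s) := by
    calc ∑ g ∈ range (j * s), ‖qp L g - qp L (g + 1)‖ ≤ ∑ g ∈ range (j * s), 2 * ε1 := by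
          apply sum_le_sum
          intro g hg
          rw [mem_range] at hg
          rw [qp_diff]
          exact mul_le_mul (hq2 g (by omega)) (h1 g hg) (norm_nonneg _) (by norm_num)
      _ = (j * s : ℕ) * (2 * ε1) := by simp
      _ ≤ (p * s : ℕ) * (2 * ε1) := by
          have : ((j * s : ℕ) : ℝ) ≤ ((p * s : ℕ) : ℝ) := by exact_mod_cast (by omega)
          gcongr
      _ = 2 * ε1 * (p * s) := by push_cast; ring
  have hB : ‖qp L (j * s) - 1‖ ≤ 2 * ε1 * (p * s) := by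
    have e0 : qp L (j * s) - 1 = - ∑ g ∈ range (j * s), (qp L g - qp L (g + 1)) := by
      rw [sum_range_sub']
      simp [qp]
    rw [e0, norm_neg]
    exact (norm_sum_le _ _).trans hA
  -- the small product
  have hC : ‖qp L (j * s + s)‖ ≤ 2 * ε2 := by
    unfold qp
    rw [norm_prod, ← mul_prod_erase (range (j * s + s)) _ (mem_range.mpr (by omega :
      j * s + i < j * s + s))]
    have h3 : ∏ x ∈ (range (j * s + s)).erase (j * s + i), ‖L x‖ ≤ 2 := by
      calc ∏ x ∈ (range (j * s + s)).erase (j * s + i), ‖L x‖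
          ≤ ∏ x ∈ (range (j * s + s)).erase (j * s + i), (1 + η) := by
            apply prod_le_prod (fun _ _ => norm_nonneg _)
            intro x _
            have := hL x
            have := norm_nonneg (1 - L x)
            linarith
        _ ≤ (1 + η) ^ (p * s) := by
            rw [prod_const]
            apply pow_le_pow_right₀ hone
            have := card_erase_le (s := range (j * s + s)) (a := j * s + i)
            rw [card_range] at this
            omega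
        _ ≤ 2 := hpow
    have h4 : 0 ≤ ∏ x ∈ (range (j * s + s)).erase (j * s + i), ‖L x‖ :=
      prod_nonneg (fun _ _ => norm_nonneg _)
    have h5 := norm_nonneg (L (j * s + i))
    nlinarith
  -- tail
  obtain ⟨r, hr⟩ : ∃ r, p * s = j * s + s + r := ⟨p * s - (j * s + s), by omega⟩
  have hD : ∑ g ∈ range r, ‖qp L (j * s + s + g) - qp L (j * s + s + g + 1)‖ ≤ 4 * ε2 := by
    have h := seq_bound L η hη hL (j * s + s) r
    have h6 : (1 + η) ^ r ≤ 2 := (pow_le_pow_right₀ hone (by omega)).trans hpow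
    have h7 := norm_nonneg (qp L (j * s + s + r))
    have h8 : ‖qp L (j * s + s)‖ * (1 + η) ^ r ≤ (2 * ε2) * 2 := by
      apply mul_le_mul hC h6 (by positivity) (by positivity)
    linarith
  have hsplit : ∑ g ∈ range (p * s), e g * (qp L g - qp L (g + 1)) =
      ∑ g ∈ range (j * s), e g * (qp L g - qp L (g + 1)) +
      ej * (qp L (j * s) - qp L (j * s + s)) +
      ∑ g ∈ range r, e (j * s + s + g) * (qp L (j * s + s + g) - qp L (j * s + s + g + 1)) := by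
    rw [hr, sum_range_add, sum_range_add]
    congr 1
    congr 1
    have h9 : ∀ g ∈ range s, e (j * s + g) * (qp L (j * s + g) - qp L (j * s + g + 1)) =
        ej * (qp L (j * s + g) - qp L (j * s + (g + 1))) := by
      intro g hg
      rw [mem_range] at hg
      rw [hej _ (by rw [mul_comm, Nat.mul_add_div hs, Nat.div_eq_of_lt hg, add_zero])]
      rfl
    rw [sum_congr rfl h9, ← mul_sum, sum_range_sub' (fun g => qp L (j * s + g)), add_zero]
  have hb : ∀ (a : ℕ → ℕ) (n : ℕ), ‖∑ g ∈ range n, e (a g) * (qp L (a g) - qp L (a g + 1))‖ ≤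
      ∑ g ∈ range n, ‖qp L (a g) - qp L (a g + 1)‖ := by
    intro a n
    refine (norm_sum_le _ _).trans ?_
    apply le_of_eq
    apply sum_congr rfl
    intro g _
    rw [norm_mul, he, one_mul]
  have hejn : ‖ej‖ = 1 := by
    rw [← hej (j * s) (Nat.mul_div_cancel _ hs)]
    exact he _
  have e1 : ∑ g ∈ range (p * s), e g * (qp L g - qp L (g + 1)) - ej =
      ∑ g ∈ range (j * s), e g * (qp L g - qp L (g + 1)) +
      ej * (qp L (j * s) - 1) - ej * qp L (j * s + s) +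
      ∑ g ∈ range r, e (j * s + s + g) * (qp L (j * s + s + g) - qp L (j * s + s + g + 1)) := by
    rw [hsplit]; ring
  rw [e1]
  have i1 := hb (fun g => g) (j * s)
  have i2 := hb (fun g => j * s + s + g) r
  have i3 : ‖ej * (qp L (j * s) - 1)‖ ≤ 2 * ε1 * (p * s) := by
    rw [norm_mul, hejn, one_mul]; exact hB
  have i4 : ‖ej * qp L (j * s + s)‖ ≤ 2 * ε2 := by
    rw [norm_mul, hejn, one_mul]; exact hC
  have t1 := norm_add_le (∑ g ∈ range (j * s), e g * (qp L g - qp L (g + 1)) +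
      ej * (qp L (j * s) - 1) - ej * qp L (j * s + s))
      (∑ g ∈ range r, e (j * s + s + g) * (qp L (j * s + s + g) - qp L (j * s + s + g + 1)))
  have t2 := norm_sub_le (∑ g ∈ range (j * s), e g * (qp L g - qp L (g + 1)) +
      ej * (qp L (j * s) - 1)) (ej * qp L (j * s + s))
  have t3 := norm_add_le (∑ g ∈ range (j * s), e g * (qp L g - qp L (g + 1)))
      (ej * (qp L (j * s) - 1))
  linarith

/-! ## lens type factors -/

theorem rs_pos (q : ℕ) : (0 : ℝ) < (1 / 2) ^ q := by positivity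

noncomputable def Lf (M K0 : ℕ) (m : ℕ → ℕ) (b K : ℕ) : CT :=
  (1 / (M : ℂ)) • ∑ q ∈ range M, G ((1 / 2) ^ q) K0 m b K

noncomputable def Lm (M : ℕ) (w : ℂ) : ℂ :=
  (1 / (M : ℂ)) * ∑ q ∈ range M, (1 - w) / (1 + (((1 / 2 : ℝ) ^ q : ℝ) : ℂ) - w)

theorem Lf_apply (M K0 : ℕ) (m : ℕ → ℕ) (b K : ℕ) (t : UnitAddCircle) :
    Lf M K0 m b K t = (1 / (M : ℂ)) * ∑ q ∈ range M, G ((1 / 2) ^ q) K0 m b K t := by
  unfold Lf
  rw [ContinuousMap.smul_apply, ContinuousMap.sum_apply, smul_eq_mul]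

theorem Lf_err (M K0 : ℕ) (hM : 0 < M) (m : ℕ → ℕ) (b K : ℕ) (hK : 0 < K) (err : ℝ)
    (herr : ∀ q < M, (K0 : ℝ) ^ 2 / K + ((1 + (1 / 2 : ℝ) ^ q)⁻¹) ^ (K0 + 1) ≤ err)
    (t : UnitAddCircle) : ‖Lf M K0 m b K t - Lm M (wm m b K t)‖ ≤ err := by
  have hM' : (0 : ℝ) < M := by exact_mod_cast hM
  rw [Lf_apply]
  unfold Lm
  rw [← mul_sub, ← sum_sub_distrib, norm_mul, norm_div, norm_one, Complex.norm_natCast]
  have h1 : ‖∑ q ∈ range M, (G ((1 / 2) ^ q) K0 m b K t -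
      (1 - wm m b K t) / (1 + (((1 / 2 : ℝ) ^ q : ℝ) : ℂ) - wm m b K t))‖ ≤ M * err := by
    refine (norm_sum_le _ _).trans ?_
    calc _ ≤ ∑ q ∈ range M, err := by
          apply sum_le_sum
          intro q hq
          exact (G_err (rs_pos q) K0 m b K hK t).trans (herr q (mem_range.mp hq))
      _ = M * err := by simp
  calc 1 / (M : ℝ) * _ ≤ 1 / (M : ℝ) * (M * err) := by gcongr
    _ = err := by field_simp

theorem Lm_real (M : ℕ) (hM : 0 < M) (w : ℂ) (hw : ‖w‖ ≤ 1) :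
    ∃ x : ℝ, 0 ≤ x ∧ x ≤ 1 ∧ ‖Lm M w - (x : ℂ)‖ ≤ 8 / M := by
  have hM' : (0 : ℝ) < M := by exact_mod_cast hM
  by_cases hZ : 1 - w = 0
  · refine ⟨0, le_rfl, zero_le_one, ?_⟩
    unfold Lm
    rw [hZ]
    simp
    positivity
  set c := ‖1 - w‖ with hc
  have hcpos : 0 < c := norm_pos_iff.mpr hZ
  let r : ℕ → ℝ := fun q => if (1 / 2 : ℝ) ^ q < c then 1 else 0
  have hr0 : ∀ q, 0 ≤ r q := by intro q; simp only [r]; split_ifs <;> norm_num
  have hr1 : ∀ q, r q ≤ 1 := by intro q; simp only [r]; split_ifs <;> norm_num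
  refine ⟨(1 / (M : ℝ)) * ∑ q ∈ range M, r q, ?_, ?_, ?_⟩
  · exact mul_nonneg (by positivity) (sum_nonneg (fun q _ => hr0 q))
  · have : ∑ q ∈ range M, r q ≤ M := by
      calc ∑ q ∈ range M, r q ≤ ∑ q ∈ range M, (1 : ℝ) := sum_le_sum (fun q _ => hr1 q)
        _ = M := by simp
    calc (1 / (M : ℝ)) * ∑ q ∈ range M, r q ≤ (1 / (M : ℝ)) * M := by gcongr
      _ = 1 := by field_simp
  · have e : Lm M w - (((1 / (M : ℝ)) * ∑ q ∈ range M, r q : ℝ) : ℂ) =
        (1 / (M : ℂ)) * ∑ q ∈ range M,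
          ((1 - w) / (1 + (((1 / 2 : ℝ) ^ q : ℝ) : ℂ) - w) - (r q : ℂ)) := by
      unfold Lm
      rw [sum_sub_distrib, mul_sub]
      push_cast
      rfl
    rw [e, norm_mul, norm_div, norm_one, Complex.norm_natCast]
    let u : ℕ → ℝ := fun q => c * 2 ^ q
    have hu : ∀ q, 0 < u q := fun q => by positivity
    have hterm : ∀ q, ‖(1 - w) / (1 + (((1 / 2 : ℝ) ^ q : ℝ) : ℂ) - w) - (r q : ℂ)‖ ≤
        8 * (1 / (1 + u q) - 1 / (1 + u (q + 1))) := by
      intro q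
      have hρ := rs_pos q
      have hD1 := D_bound hρ hw
      have hD2 := D_bound2 hρ hw
      have hDpos : 0 < ‖(1 + (((1 / 2 : ℝ) ^ q : ℝ) : ℂ) - w)‖ := lt_of_lt_of_le hρ hD1
      have hDne : (1 + (((1 / 2 : ℝ) ^ q : ℝ) : ℂ) - w) ≠ 0 := norm_pos_iff.mp hDpos
      have hue : u q = c / (1 / 2) ^ q := by
        simp only [u]
        rw [one_div, inv_pow, div_inv_eq_mul]
      have hu2 : u (q + 1) = 2 * u q := by simp only [u]; rw [pow_succ]; ring
      have huq := hu q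
      have hrhs : 8 * (1 / (1 + u q) - 1 / (1 + u (q + 1))) =
          8 * u q / ((1 + u q) * (1 + 2 * u q)) := by
        rw [hu2]
        field_simp
        ring
      rw [hrhs]
      by_cases hlt : (1 / 2 : ℝ) ^ q < c
      · have hr : r q = 1 := by simp only [r, if_pos hlt]
        rw [hr]
        have e2 : (1 - w) / (1 + (((1 / 2 : ℝ) ^ q : ℝ) : ℂ) - w) - ((1 : ℝ) : ℂ) =
            - ((((1 / 2 : ℝ) ^ q : ℝ) : ℂ) / (1 + (((1 / 2 : ℝ) ^ q : ℝ) : ℂ) - w)) := by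
          field_simp
          push_cast
          ring
        rw [e2, norm_neg, norm_div, Complex.norm_real, Real.norm_eq_abs, abs_of_pos hρ]
        have h3 : (1 / 2 : ℝ) ^ q / ‖(1 + (((1 / 2 : ℝ) ^ q : ℝ) : ℂ) - w)‖ ≤ 1 / u q := by
          rw [hue, one_div_div]
          gcongr
        refine h3.trans ?_
        have hu1 : 1 < u q := by
          rw [hue, lt_div_iff₀ hρ, one_mul]; exact hlt
        rw [div_le_div_iff₀ (hu q) (by positivity)]
        nlinarith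
      · have hr : r q = 0 := by simp only [r, if_neg hlt]
        push Not at hlt
        rw [hr, Complex.ofReal_zero, sub_zero, norm_div]
        have h3 : ‖1 - w‖ / ‖(1 + (((1 / 2 : ℝ) ^ q : ℝ) : ℂ) - w)‖ ≤ u q := by
          rw [hue]
          gcongr
        refine h3.trans ?_
        have hu1 : u q ≤ 1 := by
          rw [hue, div_le_one hρ]; exact hlt
        rw [le_div_iff₀ (by positivity)]
        nlinarith [mul_pos huq huq]
    have hsum : ‖∑ q ∈ range M, ((1 - w) / (1 + (((1 / 2 : ℝ) ^ q : ℝ) : ℂ) - w) - (r q : ℂ))‖ ≤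
        8 := by
      refine (norm_sum_le _ _).trans ?_
      refine (sum_le_sum (fun q _ => hterm q)).trans ?_
      rw [← mul_sum, sum_range_sub' (fun q => 1 / (1 + u q))]
      have h4 : 1 / (1 + u 0) ≤ 1 := by
        rw [div_le_one (by have := hu 0; positivity)]
        have := hu 0
        linarith
      have h5 : 0 ≤ 1 / (1 + u M) := by have := hu M; positivity
      linarith
    calc 1 / (M : ℝ) * _ ≤ 1 / (M : ℝ) * 8 := by gcongr
      _ = 8 / M := by ring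

theorem Lf_lens (M K0 : ℕ) (hM : 0 < M) (m : ℕ → ℕ) (b K : ℕ) (hK : 0 < K) (err : ℝ)
    (herr : ∀ q < M, (K0 : ℝ) ^ 2 / K + ((1 + (1 / 2 : ℝ) ^ q)⁻¹) ^ (K0 + 1) ≤ err)
    (t : UnitAddCircle) :
    ‖Lf M K0 m b K t‖ + ‖1 - Lf M K0 m b K t‖ ≤ 1 + (16 / M + 2 * err) := by
  obtain ⟨x, hx0, hx1, hx⟩ := Lm_real M hM (wm m b K t) (wm_norm m b K t)
  have h1 := Lf_err M K0 hM m b K hK err herr t
  set l := Lf M K0 m b K t
  set l' := Lm M (wm m b K t)
  have h2 : ‖l - (x : ℂ)‖ ≤ err + 8 / M := by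
    have : l - (x : ℂ) = (l - l') + (l' - (x : ℂ)) := by ring
    rw [this]
    exact (norm_add_le _ _).trans (add_le_add h1 hx)
  have h3 : ‖l‖ ≤ x + (err + 8 / M) := by
    have : l = (x : ℂ) + (l - (x : ℂ)) := by ring
    rw [this]
    refine (norm_add_le _ _).trans ?_
    rw [Complex.norm_real, Real.norm_eq_abs, abs_of_nonneg hx0]
    gcongr
  have h4 : ‖1 - l‖ ≤ (1 - x) + (err + 8 / M) := by
    have : 1 - l = ((1 - x : ℝ) : ℂ) - (l - (x : ℂ)) := by push_cast; ring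
    rw [this]
    refine (norm_sub_le _ _).trans ?_
    rw [Complex.norm_real, Real.norm_eq_abs, abs_of_nonneg (by linarith)]
    gcongr
  have : 16 / (M : ℝ) = 8 / M + 8 / M := by ring
  linarith

theorem Lf_small (M K0 : ℕ) (hM : 0 < M) (m : ℕ → ℕ) (b K : ℕ) (hK : 0 < K) (err : ℝ)
    (herr : ∀ q < M, (K0 : ℝ) ^ 2 / K + ((1 + (1 / 2 : ℝ) ^ q)⁻¹) ^ (K0 + 1) ≤ err)
    (t : UnitAddCircle) (ζ : ℝ)
    (hζ : ∀ j : Fin K, ‖(fourier (m (b + j) : ℤ) : CT) t - 1‖ ≤ ζ) :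
    ‖Lf M K0 m b K t‖ ≤ ζ * 2 ^ M + err := by
  have hM' : (0 : ℝ) < M := by exact_mod_cast hM
  have hζ0 : 0 ≤ ζ := (norm_nonneg _).trans (hζ ⟨0, hK⟩)
  rw [Lf_apply, norm_mul, norm_div, norm_one, Complex.norm_natCast]
  have h1 : ‖∑ q ∈ range M, G ((1 / 2) ^ q) K0 m b K t‖ ≤ M * (ζ * 2 ^ M + err) := by
    refine (norm_sum_le _ _).trans ?_
    calc _ ≤ ∑ q ∈ range M, (ζ * 2 ^ M + err) := by
          apply sum_le_sum
          intro q hq
          rw [mem_range] at hq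
          refine (G_small (rs_pos q) K0 m b K hK (herr q hq) t ζ hζ).trans ?_
          have : ζ / (1 / 2 : ℝ) ^ q = ζ * 2 ^ q := by
            rw [one_div, inv_pow, div_inv_eq_mul]
          rw [this]
          have h2 : (2 : ℝ) ^ q ≤ 2 ^ M := pow_le_pow_right₀ (by norm_num) hq.le
          gcongr
      _ = M * (ζ * 2 ^ M + err) := by simp; ring
  calc 1 / (M : ℝ) * _ ≤ 1 / (M : ℝ) * (M * (ζ * 2 ^ M + err)) := by gcongr
    _ = ζ * 2 ^ M + err := by field_simp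

theorem Lf_one (M K0 : ℕ) (hM : 0 < M) (m : ℕ → ℕ) (b K : ℕ) (hK : 0 < K) (err : ℝ)
    (herr : ∀ q < M, (K0 : ℝ) ^ 2 / K + ((1 + (1 / 2 : ℝ) ^ q)⁻¹) ^ (K0 + 1) ≤ err)
    (t : UnitAddCircle) (hw : ‖wm m b K t‖ ≤ 1 / 2) :
    ‖1 - Lf M K0 m b K t‖ ≤ 4 / M + err := by
  have hM' : (0 : ℝ) < M := by exact_mod_cast hM
  have h1 := Lf_err M K0 hM m b K hK err herr t
  set w := wm m b K t with hwd
  have hw1 : ‖w‖ ≤ 1 := hw.trans (by norm_num)
  have hZ : 1 / 2 ≤ ‖1 - w‖ := by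
    have := norm_sub_norm_le (1 : ℂ) w
    rw [norm_one] at this
    linarith
  have hMne : (M : ℂ) ≠ 0 := by exact_mod_cast hM.ne'
  have h2 : ‖1 - Lm M w‖ ≤ 4 / M := by
    have e : 1 - Lm M w = (1 / (M : ℂ)) * ∑ q ∈ range M,
        ((((1 / 2 : ℝ) ^ q : ℝ) : ℂ) / (1 + (((1 / 2 : ℝ) ^ q : ℝ) : ℂ) - w)) := by
      unfold Lm
      have : (1 : ℂ) = (1 / (M : ℂ)) * ∑ q ∈ range M, (1 : ℂ) := by
        simp [hMne]
      rw [show (1 : ℂ) - (1 / (M : ℂ)) * ∑ q ∈ range M,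
        (1 - w) / (1 + (((1 / 2 : ℝ) ^ q : ℝ) : ℂ) - w) =
        (1 / (M : ℂ)) * ∑ q ∈ range M, (1 : ℂ) - (1 / (M : ℂ)) * ∑ q ∈ range M,
        (1 - w) / (1 + (((1 / 2 : ℝ) ^ q : ℝ) : ℂ) - w) by rw [← this]]
      rw [← mul_sub, ← sum_sub_distrib]
      congr 1
      apply sum_congr rfl
      intro q _
      have hD1 := D_bound (rs_pos q) hw1
      have hDne : (1 + (((1 / 2 : ℝ) ^ q : ℝ) : ℂ) - w) ≠ 0 :=
        norm_pos_iff.mp (lt_of_lt_of_le (rs_pos q) hD1)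
      field_simp
      ring
    rw [e, norm_mul, norm_div, norm_one, Complex.norm_natCast]
    have h3 : ‖∑ q ∈ range M,
        ((((1 / 2 : ℝ) ^ q : ℝ) : ℂ) / (1 + (((1 / 2 : ℝ) ^ q : ℝ) : ℂ) - w))‖ ≤ 4 := by
      refine (norm_sum_le _ _).trans ?_
      calc _ ≤ ∑ q ∈ range M, 2 * (1 / 2 : ℝ) ^ q := by
            apply sum_le_sum
            intro q _
            have hD2 := D_bound2 (rs_pos q) hw1
            rw [norm_div, Complex.norm_real, Real.norm_eq_abs, abs_of_pos (rs_pos q)]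
            rw [div_le_iff₀ (by linarith)]
            have := rs_pos q
            nlinarith
        _ = 2 * ∑ q ∈ range M, (1 / 2 : ℝ) ^ q := by rw [mul_sum]
        _ ≤ 2 * 2 := by
            have : ∑ q ∈ range M, (1 / 2 : ℝ) ^ q ≤ 2 := by
              rw [geom_sum_eq (by norm_num)]
              have h5 : (0 : ℝ) ≤ (1 / 2) ^ M := by positivity
              rw [div_le_iff_of_neg (by norm_num)]
              linarith
            linarith
        _ = 4 := by norm_num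
    calc 1 / (M : ℝ) * _ ≤ 1 / (M : ℝ) * 4 := by gcongr
      _ = 4 / M := by ring
  have e3 : 1 - Lf M K0 m b K t = (1 - Lm M w) - (Lf M K0 m b K t - Lm M w) := by ring
  rw [e3]
  exact (norm_sub_le _ _).trans (add_le_add h2 h1)

end Pool.Agent.H681R3.TI
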