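import Pool.Agent.H681R3.TI.Main1

set_option autoImplicit false

namespace Pool.Agent.H681R3.TI
open Finset

/-- phase 0 or 1/2 -/
noncomputable def half (b : Bool) : UnitAddCircle := if b then ((1 / 2 : ℝ) : UnitAddCircle) else 0

noncomputable def sg (b : Bool) : ℂ := if b then -1 else 1

theorem half_toCircle (b : Bool) : ((half b).toCircle : ℂ) = sg b := by
  unfold half sg
  cases b
  · simp
  · simp only [if_true]
    rw [AddCircle.toCircle_apply_mk, Circle.coe_exp]
    push_cast
    have : (2 * (Real.pi : ℂ) / 1 * (1 / 2) * Complex.I) = Real.pi * Complex.I := by ring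
    rw [this, Complex.exp_pi_mul_I]

/-- greedy signs in a finite-dimensional complex Hilbert space (parallelogram law). -/
theorem exists_signs (s : ℕ) (U : ℕ → Fin s → ℂ) (hU : ∀ l i, ‖U l i‖ ≤ 1) (K : ℕ) :
    ∃ b : ℕ → Bool, ∑ i : Fin s, ‖∑ l ∈ range K, sg (b l) * U l i‖ ^ 2 ≤ K * s := by
  induction K with
  | zero => exact ⟨fun _ => false, by simp⟩
  | succ K ih =>
    obtain ⟨b, hb⟩ := ih
    have par : ∀ (z w : ℂ), ‖z + w‖ ^ 2 + ‖z - w‖ ^ 2 = 2 * (‖z‖ ^ 2 + ‖w‖ ^ 2) := by
      intro z w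
      have := parallelogram_law_with_norm ℂ z w
      nlinarith
    have hsum : ∑ i : Fin s, ‖∑ l ∈ range K, sg (b l) * U l i + U K i‖ ^ 2 +
        ∑ i : Fin s, ‖∑ l ∈ range K, sg (b l) * U l i - U K i‖ ^ 2 ≤ 2 * (K * s + s) := by
      rw [← sum_add_distrib]
      simp_rw [par]
      rw [← mul_sum, sum_add_distrib]
      have : ∑ i : Fin s, ‖U K i‖ ^ 2 ≤ s := by
        calc ∑ i : Fin s, ‖U K i‖ ^ 2 ≤ ∑ i : Fin s, (1 : ℝ) := by
              apply sum_le_sum
              intro i _
              have h1 := hU K i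
              have h2 := norm_nonneg (U K i)
              nlinarith
          _ = s := by simp
      linarith
    have hupd : ∀ c : Bool, ∀ i : Fin s,
        ∑ l ∈ range (K + 1), sg ((Function.update b K c) l) * U l i =
          ∑ l ∈ range K, sg (b l) * U l i + sg c * U K i := by
      intro c i
      rw [sum_range_succ, Function.update_self]
      congr 1
      apply sum_congr rfl
      intro l hl
      rw [mem_range] at hl
      rw [Function.update_of_ne (by omega)]
    rcases le_total (∑ i : Fin s, ‖∑ l ∈ range K, sg (b l) * U l i + U K i‖ ^ 2)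
      (∑ i : Fin s, ‖∑ l ∈ range K, sg (b l) * U l i - U K i‖ ^ 2) with h | h
    · refine ⟨Function.update b K false, ?_⟩
      simp_rw [hupd false]
      have : sg false = 1 := rfl
      simp_rw [this, one_mul]
      push_cast
      linarith
    · refine ⟨Function.update b K true, ?_⟩
      simp_rw [hupd true]
      have : sg true = -1 := rfl
      simp_rw [this, neg_one_mul, ← sub_eq_add_neg]
      push_cast
      linarith

theorem norm_fourier_sub (m : ℕ) (x β : UnitAddCircle) :
    ‖(fourier (m : ℤ) : CT) x - (β.toCircle : ℂ)‖ ≤ 2 * Real.pi * ‖m • x - β‖ := by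
  have h := norm_toCircle_sub_one (m • x - β)
  have e : (fourier (m : ℤ) : CT) x - (β.toCircle : ℂ) =
      (((m • x - β : UnitAddCircle).toCircle : ℂ) - 1) * (β.toCircle : ℂ) := by
    rw [fourier_apply, natCast_zsmul, sub_mul, one_mul, ← Circle.coe_mul,
      ← AddCircle.toCircle_add, sub_add_cancel]
  rw [e, norm_mul, Circle.norm_coe, mul_one]
  exact h

theorem fourier_arg_sub (n : ℤ) (x y : UnitAddCircle) :
    (fourier n : CT) (x - y) = (fourier n : CT) x * (fourier n : CT) (-y) := by
  rw [fourier_apply, fourier_apply, fourier_apply, ← Circle.coe_mul, ← AddCircle.toCircle_add,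
    ← smul_add, sub_eq_add_neg]

/-- a block with good signs has a small mean at all the points `x - y i`. -/
theorem wm_small (m : ℕ → ℕ) (b K s : ℕ) (hK : 0 < K) (hKs : 16 * s ≤ K)
    (y : Fin s → UnitAddCircle) (bb : ℕ → Bool)
    (hbb : ∑ i : Fin s, ‖∑ l ∈ range K, sg (bb l) * (fourier (m (b + l) : ℤ) : CT) (-y i)‖ ^ 2
      ≤ K * s) (x : UnitAddCircle) (τ : ℝ) (hτ : 2 * Real.pi * τ ≤ 1 / 4)
    (hx : ∀ l < K, ‖m (b + l) • x - half (bb l)‖ ≤ τ) (i : Fin s) :
    ‖wm m b K (x - y i)‖ ≤ 1 / 2 := by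
  have hK' : (0 : ℝ) < K := by exact_mod_cast hK
  have h1 : ‖∑ l ∈ range K, sg (bb l) * (fourier (m (b + l) : ℤ) : CT) (-y i)‖ ≤ K / 4 := by
    have h2 : ‖∑ l ∈ range K, sg (bb l) * (fourier (m (b + l) : ℤ) : CT) (-y i)‖ ^ 2 ≤ K * s :=
      le_trans (single_le_sum (f := fun i : Fin s =>
        ‖∑ l ∈ range K, sg (bb l) * (fourier (m (b + l) : ℤ) : CT) (-y i)‖ ^ 2)
        (fun i _ => by positivity) (mem_univ i)) hbb
    have h3 : (K : ℝ) * s ≤ (K / 4) ^ 2 := by
      have : (16 * s : ℝ) ≤ K := by exact_mod_cast hKs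
      nlinarith
    exact (pow_le_pow_iff_left₀ (norm_nonneg _) (by positivity) two_ne_zero).mp (h2.trans h3)
  have hwm : wm m b K (x - y i) = (1 / (K : ℂ)) * ∑ l ∈ range K,
      (fourier (m (b + l) : ℤ) : CT) (x - y i) := by
    unfold wm
    rw [Finset.sum_range (fun l => (fourier (m (b + l) : ℤ) : CT) (x - y i))]
  have hsplit : ∑ l ∈ range K, (fourier (m (b + l) : ℤ) : CT) (x - y i) =
      ∑ l ∈ range K, sg (bb l) * (fourier (m (b + l) : ℤ) : CT) (-y i) +
      ∑ l ∈ range K, ((fourier (m (b + l) : ℤ) : CT) x - sg (bb l)) *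
        (fourier (m (b + l) : ℤ) : CT) (-y i) := by
    rw [← sum_add_distrib]
    apply sum_congr rfl
    intro l _
    rw [fourier_arg_sub]
    ring
  have h4 : ‖∑ l ∈ range K, ((fourier (m (b + l) : ℤ) : CT) x - sg (bb l)) *
        (fourier (m (b + l) : ℤ) : CT) (-y i)‖ ≤ K / 4 := by
    refine (norm_sum_le _ _).trans ?_
    calc _ ≤ ∑ l ∈ range K, (1 / 4 : ℝ) := by
          apply sum_le_sum
          intro l hl
          rw [mem_range] at hl
          rw [norm_mul, norm_fourier, mul_one, ← half_toCircle]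
          refine (norm_fourier_sub _ _ _).trans (le_trans ?_ hτ)
          gcongr
          exact hx l hl
      _ = K / 4 := by simp; ring
  rw [hwm, hsplit, norm_mul, norm_div, norm_one, Complex.norm_natCast]
  calc 1 / (K : ℝ) * _ ≤ 1 / (K : ℝ) * (K / 4 + K / 4) := by
        gcongr
        exact (norm_add_le _ _).trans (add_le_add h1 h4)
    _ = 1 / 2 := by field_simp; ring

end Pool.Agent.H681R3.TI
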