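import Pool.Agent.H681R3.TI.Lens
import Pool.Agent.H681R3.TI.Signs
import Pool.Agent.H681R3.TI.Defs

set_option autoImplicit false

namespace Pool.Agent.H681R3.TI
open Finset

theorem fam_prod_mem (Φ : ℕ → CT) (c : ℂ) (m : ℕ → ℕ) (K : ℕ)
    (h : ∀ i, Φ i - c • (1 : CT) ∈ M0 m (Ico (i * K) (i * K + K))) (n : ℕ) :
    (∏ i ∈ range n, Φ i) - (c ^ n) • (1 : CT) ∈ M0 m (range (n * K)) := by
  induction n with
  | zero => simp
  | succ n ih =>
    rw [prod_range_succ, pow_succ]
    have hd : Disjoint (range (n * K)) (Ico (n * K) (n * K + K)) := by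
      rw [disjoint_left]
      intro a ha hb
      rw [mem_range] at ha
      rw [mem_Ico] at hb
      omega
    have h := X_mul m hd ih (h n)
    refine M0_mono m ?_ h
    intro a ha
    rw [mem_union, mem_range, mem_Ico] at ha
    rw [mem_range]
    have : (n + 1) * K = n * K + K := by ring
    omega

noncomputable def Lc (M : ℕ) : ℂ :=
  (1 / (M : ℂ)) * ∑ q ∈ range M, ((1 - ck ((1 / 2) ^ q) 0 : ℝ) : ℂ)

theorem Lf_mem (M K0 : ℕ) (m : ℕ → ℕ) (b K : ℕ) :
    Lf M K0 m b K - (Lc M) • (1 : CT) ∈ M0 m (Ico b (b + K)) := by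
  have e : Lf M K0 m b K - (Lc M) • (1 : CT) = (1 / (M : ℂ)) • ∑ q ∈ range M,
      (G ((1 / 2) ^ q) K0 m b K - ((1 - ck ((1 / 2) ^ q) 0 : ℝ) : ℂ) • (1 : CT)) := by
    unfold Lf Lc
    ext t
    simp only [ContinuousMap.sub_apply, ContinuousMap.smul_apply, ContinuousMap.sum_apply,
      ContinuousMap.one_apply, smul_eq_mul, mul_one, sum_sub_distrib, mul_sub]
  rw [e]
  apply Submodule.smul_mem
  apply Submodule.sum_mem
  intro q _
  exact G_mem _ K0 m b K

theorem shift_mem (E : Set ℤ) (ν : ℤ) (m : ℕ → ℕ) (S : Finset ℕ)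
    (h : ∀ A : Finset ℕ, A ⊆ S → A.Nonempty → ν + ((∑ j ∈ A, m j : ℕ) : ℤ) ∈ E)
    (f : CT) (hf : f ∈ M0 m S) : (fourier ν : CT) * f ∈ CE E := by
  unfold M0 at hf
  induction hf using Submodule.span_induction with
  | mem f hf =>
    obtain ⟨A, hA, hne, rfl⟩ := hf
    rw [fourier_mul_add]
    exact fourier_mem_CE E _ (h A hA hne)
  | zero => rw [mul_zero]; exact Submodule.zero_mem _
  | add x y _ _ hx hy => rw [mul_add]; exact Submodule.add_mem _ hx hy
  | smul a x _ hx => rw [mul_smul_comm]; exact Submodule.smul_mem _ _ hx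

/-- partial products as functions -/
noncomputable def qf (M K0 : ℕ) (m : ℕ → ℕ) (K : ℕ) (g : ℕ) : CT :=
  ∏ i ∈ range g, Lf M K0 m (i * K) K

theorem qf_apply (M K0 : ℕ) (m : ℕ → ℕ) (K : ℕ) (g : ℕ) (t : UnitAddCircle) :
    qf M K0 m K g t = qp (fun i => Lf M K0 m (i * K) K t) g := by
  unfold qf qp
  rw [ContinuousMap.prod_apply]

noncomputable def uf (M K0 : ℕ) (m : ℕ → ℕ) (K s Gn : ℕ) (n : ℕ → ℤ) : CT :=
  ∑ g ∈ range Gn, (fourier (n (g / s)) : CT) * (qf M K0 m K g - qf M K0 m K (g + 1))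

theorem uf_apply (M K0 : ℕ) (m : ℕ → ℕ) (K s Gn : ℕ) (n : ℕ → ℤ) (t : UnitAddCircle) :
    uf M K0 m K s Gn n t = ∑ g ∈ range Gn, (fourier (n (g / s)) : CT) t *
      (qp (fun i => Lf M K0 m (i * K) K t) g - qp (fun i => Lf M K0 m (i * K) K t) (g + 1)) := by
  unfold uf
  rw [ContinuousMap.sum_apply]
  apply sum_congr rfl
  intro g _
  rw [ContinuousMap.mul_apply, ContinuousMap.sub_apply, qf_apply, qf_apply]

theorem uf_mem (M K0 : ℕ) (m : ℕ → ℕ) (K s p : ℕ) (hs : 0 < s) (n : ℕ → ℤ) (E : Set ℤ)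
    (hE : ∀ j < p, ∀ A : Finset ℕ, A ⊆ range (p * s * K) →
      n j + ((∑ i ∈ A, m i : ℕ) : ℤ) ∈ E) :
    uf M K0 m K s (p * s) n ∈ CE E := by
  unfold uf
  apply Submodule.sum_mem
  intro g hg
  rw [mem_range] at hg
  have hj : g / s < p := Nat.div_lt_of_lt_mul (by rwa [mul_comm])
  have h1 := fam_prod_mem (fun i => Lf M K0 m (i * K) K) (Lc M) m K
    (fun i => Lf_mem M K0 m (i * K) K)
  have e : (fourier (n (g / s)) : CT) * (qf M K0 m K g - qf M K0 m K (g + 1)) =
      (fourier (n (g / s)) : CT) * ((qf M K0 m K g - (Lc M ^ g) • (1 : CT)) -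
        (qf M K0 m K (g + 1) - (Lc M ^ (g + 1)) • (1 : CT))) +
      (Lc M ^ g - Lc M ^ (g + 1)) • (fourier (n (g / s)) : CT) := by
    ext t
    simp only [ContinuousMap.mul_apply, ContinuousMap.sub_apply, ContinuousMap.add_apply,
      ContinuousMap.smul_apply, ContinuousMap.one_apply, smul_eq_mul, mul_one]
    ring
  rw [e]
  apply Submodule.add_mem
  · apply shift_mem E _ m (range (p * s * K))
    · intro A hA _
      exact hE _ hj A hA
    · apply Submodule.sub_mem
      · refine M0_mono m ?_ (h1 g)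
        apply range_subset_range.mpr
        exact Nat.mul_le_mul_right _ hg.le
      · refine M0_mono m ?_ (h1 (g + 1))
        apply range_subset_range.mpr
        exact Nat.mul_le_mul_right _ hg
  · apply Submodule.smul_mem
    apply fourier_mem_CE
    have := hE _ hj ∅ (empty_subset _)
    simpa using this

theorem exp_half_le : Real.exp (1 / 2) ≤ 2 := by
  have h4 : Real.exp (1 / 2) ^ 2 = Real.exp 1 := by
    rw [← Real.exp_nat_mul]; norm_num
  have h5 := Real.exp_one_lt_d9
  by_contra hcon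
  push Not at hcon
  nlinarith

theorem pow_le_two (η : ℝ) (hη : 0 ≤ η) (n : ℕ) (h : η * n ≤ 1 / 2) : (1 + η) ^ n ≤ 2 := by
  have h1 : (1 + η) ^ n ≤ Real.exp (n * η) := by
    rw [mul_comm, Real.exp_mul, Real.rpow_natCast]
    apply pow_le_pow_left₀ (by positivity)
    have := Real.add_one_le_exp η
    linarith
  have h3 : Real.exp (n * η) ≤ Real.exp (1 / 2) := Real.exp_le_exp.mpr (by linarith)
  have := exp_half_le
  linarith

theorem lens_univ (p s : ℕ) (hp : 0 < p) (hs : 0 < s) :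
    ∃ (V Q : ℕ), 0 < Q ∧ ∀ m : ℕ → ℕ, (∀ j, 0 < m j) →
      (∀ j, j + 1 < V → (Q : ℝ) * m j ≤ m (j + 1)) → ∀ n : ℕ → ℤ,
    ∃ u : CT, (∀ E : Set ℤ, (∀ j < p, ∀ A : Finset ℕ, A ⊆ range V →
        n j + ((∑ i ∈ A, m i : ℕ) : ℤ) ∈ E) → u ∈ CE E) ∧ (∀ t, ‖u t‖ ≤ 2) ∧
      ∀ j < p, ∀ y : Fin s → UnitAddCircle,
        (∀ i, ‖(fourier (n j) : CT) (-y i) - 1‖ ≤ 1 / 4) →
        ∃ x : UnitAddCircle, ∃ θ : ℂ, ‖θ‖ = 1 ∧ ∀ i, 1 / 2 ≤ (θ * u (x - y i)).re := by
  set Gn := p * s with hGn
  have hG : 0 < Gn := by positivity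
  have hG' : (0 : ℝ) < Gn := by exact_mod_cast hG
  have hG1 : (1 : ℝ) ≤ Gn := by exact_mod_cast hG
  set M := 2000 * Gn with hMd
  have hM : 0 < M := by positivity
  have hM' : (0 : ℝ) < M := by exact_mod_cast hM
  have hMr : (M : ℝ) = 2000 * Gn := by rw [hMd]; push_cast; ring
  set err : ℝ := 1 / (2000 * Gn) with herrd
  have herr0 : 0 < err := by positivity
  set r : ℝ := (1 + (1 / 2 : ℝ) ^ M)⁻¹ with hr
  have hr1 : r < 1 := by
    apply inv_lt_one_of_one_lt₀
    have := rs_pos M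
    linarith
  have hr0 : 0 < r := by positivity
  obtain ⟨K0, hK0⟩ := exists_pow_lt_of_lt_one (show (0 : ℝ) < err / 2 by positivity) hr1
  have hK0' : ∀ q < M, ((1 + (1 / 2 : ℝ) ^ q)⁻¹) ^ (K0 + 1) ≤ err / 2 := by
    intro q hq
    have h1 : (1 + (1 / 2 : ℝ) ^ q)⁻¹ ≤ r := by
      rw [hr]
      have : (1 / 2 : ℝ) ^ M ≤ (1 / 2) ^ q :=
        pow_le_pow_of_le_one (by norm_num) (by norm_num) hq.le
      gcongr
    calc ((1 + (1 / 2 : ℝ) ^ q)⁻¹) ^ (K0 + 1) ≤ r ^ (K0 + 1) := by gcongr
      _ ≤ r ^ K0 := pow_le_pow_of_le_one hr0.le hr1.le (Nat.le_succ _)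
      _ ≤ err / 2 := hK0.le
  obtain ⟨K1, hK1⟩ := exists_nat_gt ((K0 : ℝ) ^ 2 / (err / 2))
  set K := K1 + 16 * s with hKd
  have hKpos : 0 < K := by omega
  have hK' : (0 : ℝ) < K := by exact_mod_cast hKpos
  have hKs : 16 * s ≤ K := by omega
  have hKe : (K0 : ℝ) ^ 2 / K ≤ err / 2 := by
    have h1 : (K1 : ℝ) ≤ K := by exact_mod_cast (by omega : K1 ≤ K)
    have h2 : (K0 : ℝ) ^ 2 / (err / 2) < K := lt_of_lt_of_le hK1 h1
    rw [div_lt_iff₀ (by positivity)] at h2
    rw [div_le_iff₀ hK']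
    linarith
  have herr : ∀ q < M, (K0 : ℝ) ^ 2 / K + ((1 + (1 / 2 : ℝ) ^ q)⁻¹) ^ (K0 + 1) ≤ err := by
    intro q hq
    have := hK0' q hq
    linarith
  set τ : ℝ := 1 / (800 * 2 ^ M) with hτd
  have h2M : (1 : ℝ) ≤ 2 ^ M := one_le_pow₀ (by norm_num)
  have hτ0 : 0 < τ := by positivity
  have hτ800 : τ ≤ 1 / 800 := by
    rw [hτd]
    apply one_div_le_one_div_of_le (by norm_num)
    linarith
  have hpi := Real.pi_lt_d2
  have hpi0 := Real.pi_pos
  have hτ14 : 2 * Real.pi * τ ≤ 1 / 4 := by nlinarith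
  have hζ : 2 * Real.pi * τ * 2 ^ M ≤ 1 / 100 := by
    rw [hτd]
    have : 2 * Real.pi * (1 / (800 * 2 ^ M)) * 2 ^ M = 2 * Real.pi / 800 := by
      field_simp
    rw [this]
    linarith
  set η : ℝ := 16 / M + 2 * err with hηd
  have hη0 : 0 ≤ η := by positivity
  have hηv : η * Gn = 18 / 2000 := by
    rw [hηd, hMr, herrd]
    field_simp
    norm_num
  have hpow : (1 + η) ^ Gn ≤ 2 := pow_le_two η hη0 Gn (by rw [hηv]; norm_num)
  refine ⟨p * s * K, 800 * 2 ^ M, by positivity, ?_⟩
  intro m hm hl n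
  have hLens : ∀ t g, ‖(fun i => Lf M K0 m (i * K) K t) g‖ +
      ‖1 - (fun i => Lf M K0 m (i * K) K t) g‖ ≤ 1 + η := by
    intro t g
    exact Lf_lens M K0 hM m (g * K) K hKpos err herr t
  refine ⟨uf M K0 m K s (p * s) n, ?_, ?_, ?_⟩
  · intro E hE
    exact uf_mem M K0 m K s p hs n E hE
  · intro t
    rw [uf_apply]
    refine (norm_sum_le _ _).trans ?_
    have h := seq_bound (fun i => Lf M K0 m (i * K) K t) η hη0 (hLens t) 0 Gn
    have h0 : qp (fun i => Lf M K0 m (i * K) K t) 0 = 1 := by simp [qp]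
    rw [h0, norm_one, one_mul] at h
    simp only [zero_add] at h
    have h2 := norm_nonneg (qp (fun i => Lf M K0 m (i * K) K t) Gn)
    have h3 : ∑ g ∈ range (p * s), ‖(fourier (n (g / s)) : CT) t *
        (qp (fun i => Lf M K0 m (i * K) K t) g - qp (fun i => Lf M K0 m (i * K) K t) (g + 1))‖ =
        ∑ g ∈ range Gn, ‖qp (fun i => Lf M K0 m (i * K) K t) g -
          qp (fun i => Lf M K0 m (i * K) K t) (g + 1)‖ := by
      apply sum_congr rfl
      intro g _
      rw [norm_mul, norm_fourier, one_mul]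
    rw [h3]
    linarith
  · intro j hj y hy
    -- signs
    have hsig : ∀ g : ℕ, ∃ bb : ℕ → Bool, ∑ i : Fin s, ‖∑ l ∈ range K, sg (bb l) *
        (fourier (m (g * K + l) : ℤ) : CT) (-y i)‖ ^ 2 ≤ K * s := by
      intro g
      exact exists_signs s (fun l i => (fourier (m (g * K + l) : ℤ) : CT) (-y i))
        (fun l i => (norm_fourier _ _).le) K
    choose bb hbb using hsig
    obtain ⟨x, hx⟩ := kron ((800 * 2 ^ M : ℕ) : ℝ) τ hτ0 (by linarith) (by
      rw [hτd]; push_cast; rw [one_div, inv_mul_cancel₀ (by positivity)]) (p * s * K) m hm hl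
      (fun v => if v / K < j * s then half (bb (v / K) (v % K)) else
        if h : v / K - j * s < s then m v • y ⟨v / K - j * s, h⟩ else 0)
    refine ⟨x, starRingEnd ℂ ((fourier (n j) : CT) x), ?_, ?_⟩
    · rw [RCLike.norm_conj, norm_fourier]
    · intro i
      have hjs : j * s + s ≤ p * s := by
        calc j * s + s = (j + 1) * s := by ring
          _ ≤ p * s := Nat.mul_le_mul_right _ (by omega)
      have hvK : ∀ g l, l < K → (g * K + l) / K = g ∧ (g * K + l) % K = l := by
        intro g l hl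
        constructor
        · rw [mul_comm, Nat.mul_add_div hKpos, Nat.div_eq_of_lt hl, add_zero]
        · rw [mul_comm, Nat.mul_add_mod, Nat.mod_eq_of_lt hl]
      have hvlt : ∀ g l, g < p * s → l < K → g * K + l < p * s * K := by
        intro g l hg hl
        calc g * K + l < g * K + K := by omega
          _ = (g + 1) * K := by ring
          _ ≤ p * s * K := Nat.mul_le_mul_right _ hg
      set t := x - y i with ht
      have H1 : ∀ g, g < j * s → ‖1 - (fun i => Lf M K0 m (i * K) K t) g‖ ≤ 4 / M + err := by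
        intro g hg
        apply Lf_one M K0 hM m (g * K) K hKpos err herr t
        apply wm_small m (g * K) K s hKpos hKs y (bb g) (hbb g) x τ hτ14
        intro l hl
        have := hx (g * K + l) (hvlt g l (by omega) hl)
        rw [(hvK g l hl).1, (hvK g l hl).2, if_pos hg] at this
        exact this
      have H2 : ‖(fun i => Lf M K0 m (i * K) K t) (j * s + i)‖ ≤
          2 * Real.pi * τ * 2 ^ M + err := by
        apply Lf_small M K0 hM m ((j * s + i) * K) K hKpos err herr t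
        intro l
        refine (norm_fourier_sub_one _ _).trans ?_
        have hi := i.2
        have := hx ((j * s + i) * K + l) (hvlt _ _ (by omega) l.2)
        have h5 : ¬ (j * s + (i : ℕ) < j * s) := by omega
        have h6 : j * s + (i : ℕ) - j * s = i := by omega
        have h7 : (i : ℕ) < s := hi
        simp only [(hvK (j * s + i) l l.2).1, if_neg h5, h6, h7, dite_true, Fin.eta] at this
        have e : ((m ((j * s + i) * K + l) : ℕ) : ℤ) • t =
            m ((j * s + i) * K + l) • x - m ((j * s + i) * K + l) • y i := by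
          rw [natCast_zsmul, ht, smul_sub]
        rw [e]
        gcongr
      have hpe := point_est (fun i => Lf M K0 m (i * K) K t) η (4 / M + err)
        (2 * Real.pi * τ * 2 ^ M + err) hη0 (by positivity) (by positivity) (hLens t) p s j hj
        hpow (fun g => (fourier (n (g / s)) : CT) t) (fun g => norm_fourier _ _)
        ((fourier (n j) : CT) t) (fun g hg => by simp only [hg]) H1 i i.2 H2
      rw [← uf_apply] at hpe
      have hnum : 4 * (4 / M + err) * (p * s) + 6 * (2 * Real.pi * τ * 2 ^ M + err) ≤ 1 / 8 := by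
        have h8 : 4 * (4 / (M : ℝ) + err) * (p * s) = 20 / 2000 := by
          have : ((p : ℝ) * s) = Gn := by rw [hGn]; push_cast; ring
          rw [this, hMr, herrd]
          field_simp
          norm_num
        have h9 : err ≤ 1 / 2000 := by
          rw [herrd]
          apply one_div_le_one_div_of_le (by norm_num)
          linarith
        rw [h8]
        linarith
      have hfin : ‖uf M K0 m K s (p * s) n t - (fourier (n j) : CT) t‖ ≤ 1 / 8 := hpe.trans hnum
      have e1 : (fourier (n j) : CT) t = (fourier (n j) : CT) x * (fourier (n j) : CT) (-y i) := by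
        rw [ht, fourier_arg_sub]
      set a := (fourier (n j) : CT) x with ha
      set c := (fourier (n j) : CT) (-y i) with hc
      have hna : starRingEnd ℂ a * a = 1 := by
        rw [mul_comm, Complex.mul_conj, Complex.normSq_eq_norm_sq, ha, norm_fourier]
        simp
      have e2 : starRingEnd ℂ a * uf M K0 m K s (p * s) n t =
          1 + ((c - 1) + starRingEnd ℂ a * (uf M K0 m K s (p * s) n t -
            (fourier (n j) : CT) t)) := by
        rw [mul_sub, e1, ← mul_assoc, hna]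
        ring
      rw [e2, Complex.add_re, Complex.one_re]
      have h10 : ‖(c - 1) + starRingEnd ℂ a * (uf M K0 m K s (p * s) n t -
            (fourier (n j) : CT) t)‖ ≤ 1 / 4 + 1 / 8 := by
        refine (norm_add_le _ _).trans (add_le_add (hy i) ?_)
        rw [norm_mul, RCLike.norm_conj, ha, norm_fourier, one_mul]
        exact hfin
      have h11 := (abs_le.mp (Complex.abs_re_le_norm ((c - 1) + starRingEnd ℂ a *
        (uf M K0 m K s (p * s) n t - (fourier (n j) : CT) t)))).1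
      linarith

end Pool.Agent.H681R3.TI
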