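import Pool.Agent.H681R3.TI.Lens2
import Pool.Agent.H681R3.TI.Bohr

set_option autoImplicit false

namespace Pool.Agent.H681R3.TI
open Finset Filter Topology

theorem FSRich_mono {X Y : Set ℤ} (h : X ⊆ Y) (hX : FSRich X) : FSRich Y := by
  intro r
  obtain ⟨n, hn, hE⟩ := hX r
  exact ⟨n, hn, fun A hA => h (hE A hA)⟩

theorem FSRich_large (X : Set ℤ) (hX : FSRich X) (N : ℕ) : FSRich (X ∩ {k | (N : ℤ) < k}) := by
  intro r
  obtain ⟨m, hm, hl, hmX⟩ := lacunary_subsystem X hX (r + N + 1) 2 (by norm_num)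
  have hgrow : ∀ j, j < r + N + 1 → j < m j := by
    intro j
    induction j with
    | zero => intro _; exact hm 0
    | succ j ih =>
      intro hj
      have h1 := ih (by omega)
      have h2 := hl j hj
      have h3 : 2 * m j ≤ m (j + 1) := by exact_mod_cast h2
      omega
  refine ⟨fun i => m (i + N), fun i => hm _, ?_⟩
  intro A hA
  have hsum : ∑ i ∈ A, m ((i : ℕ) + N) = ∑ j ∈ A.image (fun i : Fin r => (i : ℕ) + N), m j := by
    rw [sum_image]
    intro a _ b _ hab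
    apply Fin.ext
    simpa using hab
  refine ⟨?_, ?_⟩
  · rw [hsum]
    apply hmX
    · intro j hj
      rw [mem_image] at hj
      obtain ⟨i, _, rfl⟩ := hj
      rw [mem_range]
      have := i.2
      omega
    · exact hA.image _
  · show (N : ℤ) < ((∑ i ∈ A, m ((i : ℕ) + N) : ℕ) : ℤ)
    obtain ⟨i, hi⟩ := hA
    have h1 : m ((i : ℕ) + N) ≤ ∑ i ∈ A, m ((i : ℕ) + N) :=
      single_le_sum (f := fun i : Fin r => m ((i : ℕ) + N)) (fun _ _ => Nat.zero_le _) hi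
    have h2 := hgrow ((i : ℕ) + N) (by have := i.2; omega)
    have : N < ∑ i ∈ A, m ((i : ℕ) + N) := by omega
    exact_mod_cast this

/-- universal function adapted to the frequencies `n j`, `j < p`, for `s` points -/
def UP (E : Set ℤ) (p s : ℕ) (n : ℕ → ℤ) : Prop :=
  ∃ u ∈ CE E, (∀ t, ‖u t‖ ≤ 2) ∧ ∀ j < p, ∀ y : Fin s → UnitAddCircle,
    (∀ i, ‖(fourier (n j) : CT) (-y i) - 1‖ ≤ 1 / 4) →
    ∃ x : UnitAddCircle, ∃ θ : ℂ, ‖θ‖ = 1 ∧ ∀ i, 1 / 2 ≤ (θ * u (x - y i)).re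

theorem UP_of_rich (E : Set ℤ) (p s : ℕ) (hp : 0 < p) (hs : 0 < s) (n : ℕ → ℤ)
    (hn : ∀ j < p, n j ∈ E) (h : FSRich {k | ∀ j < p, n j + k ∈ E}) : UP E p s n := by
  obtain ⟨V, Q, hQ, hu⟩ := lens_univ p s hp hs
  obtain ⟨m, hm, hl, hmE⟩ := lacunary_subsystem _ h V Q hQ
  obtain ⟨u, hu1, hu2, hu3⟩ := hu m hm hl n
  refine ⟨u, hu1 E ?_, hu2, hu3⟩
  intro j hj A hA
  rcases A.eq_empty_or_nonempty with rfl | hne
  · simpa using hn j hj
  · exact hmE A hA hne j hj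

theorem UP_refl (E : Set ℤ) (p s : ℕ) (n : ℕ → ℤ) (h : UP (-E) p s (fun j => - n j)) :
    UP E p s n := by
  obtain ⟨u, hu1, hu2, hu3⟩ := h
  refine ⟨refl' u, refl_mem E u hu1, fun t => hu2 (-t), ?_⟩
  intro j hj y hy
  obtain ⟨x, θ, hθ, hx⟩ := hu3 j hj (fun i => - y i) (by
    intro i
    have e : (fourier (-n j) : CT) (- -y i) = (fourier (n j) : CT) (-y i) := by
      rw [fourier_apply, fourier_apply, neg_neg, neg_smul, smul_neg]
    rw [e]
    exact hy i)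
  refine ⟨-x, θ, hθ, ?_⟩
  intro i
  have := hx i
  rw [refl'_apply]
  have e : -(-x - y i) = x - -y i := by abel
  rw [e]
  exact this

/-- both signs of the finite sums -/
theorem UP_of_FSZ (E : Set ℤ) (p s : ℕ) (hp : 0 < p) (hs : 0 < s) (n : ℕ → ℤ)
    (hn : ∀ j < p, n j ∈ E) (hn0 : ∀ j < p, n j ≠ 0)
    (h : FSZ {k | ∀ j < p, n j + k ∈ E}) : UP (E \ {0}) p s n := by
  set N : ℕ := ∑ j ∈ range p, (n j).natAbs with hN
  have hNb : ∀ j < p, |n j| ≤ N := by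
    intro j hj
    have h1 : (n j).natAbs ≤ N :=
      single_le_sum (f := fun j => (n j).natAbs) (fun _ _ => Nat.zero_le _) (mem_range.mpr hj)
    rw [← Int.natCast_natAbs]
    exact_mod_cast h1
  rcases FSZ_split _ h with h | h
  · apply UP_of_rich (E \ {0}) p s hp hs n
      (fun j hj => (⟨hn j hj, hn0 j hj⟩ : n j ∈ E \ {0}))
    apply FSRich_mono _ (FSRich_large _ h N)
    rintro k ⟨hk, hkN⟩ j hj
    refine ⟨hk j hj, ?_⟩
    rw [Set.mem_singleton_iff]
    have h1 := (abs_le.mp (hNb j hj)).1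
    have h2 : (N : ℤ) < k := hkN
    omega
  · apply UP_refl
    apply UP_of_rich _ p s hp hs (fun j => - n j)
    · intro j hj
      rw [Set.mem_neg, neg_neg]
      exact ⟨hn j hj, hn0 j hj⟩
    · apply FSRich_mono _ (FSRich_large _ h N)
      rintro k ⟨hk, hkN⟩ j hj
      rw [Set.mem_neg]
      have hk' := hk j hj
      refine ⟨?_, ?_⟩
      · rw [neg_add, neg_neg]
        exact hk'
      · rw [Set.mem_singleton_iff]
        have h1 := (abs_le.mp (hNb j hj)).2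
        have h2 : (N : ℤ) < k := hkN
        omega

/-- Baire contradiction, general form -/
theorem not_cov_gen (E : Set ℤ)
    (hU : ∀ mm R : ℕ, 0 < R → ∃ u ∈ CE (E \ {0}), (∀ t, ‖u t‖ ≤ 2) ∧
      ∀ l : List UnitAddCircle, l.length = mm → ∃ x : UnitAddCircle, ∃ θ : ℂ, ‖θ‖ = 1 ∧
        ∀ z ∈ Box R l, 1 / 2 ≤ (θ * u (x - z)).re) :
    ¬ ∀ h ∈ CE E, fcL 0 h = 0 → ∃ (l : List UnitAddCircle) (K : ℝ), 0 ≤ K ∧ BA l K h := by
  intro hcov
  obtain ⟨m, K, ε, hε, hK, hunif⟩ := baire_uniform (E \ {0}) (by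
    intro h hh
    apply hcov h
    · rw [mem_CE] at *
      intro k hk
      exact hh k (fun hk' => hk hk'.1)
    · rw [mem_CE] at hh
      exact hh 0 (fun h => h.2 rfl))
  obtain ⟨R, hR⟩ := exists_nat_gt (8 * K / ε)
  have hRpos' : (0 : ℝ) < R := lt_of_le_of_lt (by positivity) hR
  have hRpos : 0 < R := by exact_mod_cast hRpos'
  obtain ⟨u, hu, hu3, huy⟩ := hU m R hRpos
  have hun : ‖u‖ ≤ 2 := by
    rw [ContinuousMap.norm_le _ (by norm_num)]
    exact hu3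
  obtain ⟨l, hlm, hl⟩ := hunif (((ε / 4 : ℝ) : ℂ) • u) (Submodule.smul_mem _ _ hu) (by
    rw [norm_smul, Complex.norm_real, Real.norm_eq_abs, abs_of_pos (by positivity)]
    nlinarith)
  have h1 := hl R hRpos
  rw [AL_smul, norm_smul, Complex.norm_real, Real.norm_eq_abs, abs_of_pos (by positivity)] at h1
  obtain ⟨x, θ, hθ, hx⟩ := huy l hlm
  have h2 := Box_avg R hRpos l (θ • u) (1 / 2) x (by
    intro y hy
    have := hx y hy
    rw [ContinuousMap.smul_apply, smul_eq_mul]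
    exact this)
  have h3 : 1 / 2 ≤ ‖AL R l u‖ := by
    have h5 : 1 / 2 ≤ ‖AL R l (θ • u)‖ := by
      refine h2.trans ((Complex.re_le_norm _).trans ?_)
      exact (AL R l (θ • u)).norm_coe_le_norm x
    rw [AL_smul, norm_smul, hθ, one_mul] at h5
    exact h5
  have h4 : ε / 8 ≤ K / R := by
    calc ε / 8 = ε / 4 * (1 / 2) := by ring
      _ ≤ ε / 4 * ‖AL R l u‖ := by gcongr
      _ ≤ K / R := h1
  rw [div_lt_iff₀ hε] at hR
  rw [le_div_iff₀ hRpos'] at h4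
  nlinarith

theorem not_AC_gen (E : Set ℤ)
    (hU : ∀ mm R : ℕ, 0 < R → ∃ u ∈ CE (E \ {0}), (∀ t, ‖u t‖ ≤ 2) ∧
      ∀ l : List UnitAddCircle, l.length = mm → ∃ x : UnitAddCircle, ∃ θ : ℂ, ‖θ‖ = 1 ∧
        ∀ z ∈ Box R l, 1 / 2 ≤ (θ * u (x - z)).re) : ¬ AutomaticContinuity E := by
  intro hAC
  apply not_cov_gen E hU
  intro h hh h0
  exact DD_BA E h (AC_cov E hAC h hh h0)

theorem Box_small (R : ℕ) (l : List UnitAddCircle) (n : ℤ) (δ : ℝ) (_hδ : 0 ≤ δ)
    (h : ∀ a ∈ l, ‖n • a‖ ≤ δ) : ∀ z ∈ Box R l, ‖n • z‖ ≤ l.length * (R * δ) := by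
  classical
  induction l with
  | nil =>
    intro z hz
    have : z = 0 := by simpa [Box] using hz
    subst this
    simp
  | cons a l ih =>
    intro z hz
    unfold Box at hz
    rw [mem_image] at hz
    obtain ⟨⟨r, b⟩, hrb, rfl⟩ := hz
    rw [mem_product, mem_range] at hrb
    have h1 := ih (fun a ha => h a (List.mem_cons_of_mem _ ha)) b hrb.2
    have h2 := h a List.mem_cons_self
    have e : n • ((r, b).1 • a + (r, b).2) = r • (n • a) + n • b := by
      show n • (r • a + b) = _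
      rw [smul_add, smul_comm]
    rw [e]
    have h3 : ‖r • (n • a)‖ ≤ R * δ := by
      refine (norm_nsmul_le).trans ?_
      have : (r : ℝ) ≤ R := by exact_mod_cast hrb.1.le
      gcongr
    rw [List.length_cons]
    push_cast
    have h4 := norm_add_le (r • (n • a)) (n • b)
    linarith

/-- finite sets of elements of one sign can be shifted by rich finite sums inside `E` -/
def LocallyRich (E : Set ℤ) : Prop :=
  ∀ F : Finset ℤ, (∀ n ∈ F, n ∈ E) → ((∀ n ∈ F, 0 < n) ∨ (∀ n ∈ F, n < 0)) →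
    ∀ r : ℕ, ∃ k : Fin r → ℤ, (∀ i, k i ≠ 0) ∧
      ∀ n ∈ F, ∀ A : Finset (Fin r), n + ∑ i ∈ A, k i ∈ E

theorem loc_univ (E : Set ℤ) (P : Set ℤ) (hPE : P ⊆ E) (hP0 : (0 : ℤ) ∉ P)
    (hrich : ∀ F : Finset ℤ, (∀ n ∈ F, n ∈ P) → FSZ {k | ∀ n ∈ F, n + k ∈ E})
    (hcl : ∀ (S : Finset UnitAddCircle) (δ : ℝ), 0 < δ → ∃ k ∈ P, k ∈ Bohr S δ)
    (mm R : ℕ) (hR : 0 < R) :
    ∃ u ∈ CE (E \ {0}), (∀ t, ‖u t‖ ≤ 2) ∧
      ∀ l : List UnitAddCircle, l.length = mm → ∃ x : UnitAddCircle, ∃ θ : ℂ, ‖θ‖ = 1 ∧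
        ∀ z ∈ Box R l, 1 / 2 ≤ (θ * u (x - z)).re := by
  classical
  set δ : ℝ := 1 / (32 * (mm * R + 1)) with hδd
  have hδ : 0 < δ := by positivity
  -- finite subcover
  obtain ⟨F, hF⟩ := (isCompact_univ (X := Fin mm → UnitAddCircle)).elim_finite_subcover
    (fun n : P => {a : Fin mm → UnitAddCircle | ∀ i, ‖(n : ℤ) • a i‖ < δ})
    (by
      intro n
      have : {a : Fin mm → UnitAddCircle | ∀ i, ‖(n : ℤ) • a i‖ < δ} =
          ⋂ i, {a : Fin mm → UnitAddCircle | ‖(n : ℤ) • a i‖ < δ} := by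
        ext a; simp
      rw [this]
      apply isOpen_iInter_of_finite
      intro i
      apply isOpen_lt _ continuous_const
      fun_prop)
    (by
      intro a _
      obtain ⟨k, hk, hkB⟩ := hcl (univ.image a) δ hδ
      rw [Set.mem_iUnion]
      exact ⟨⟨k, hk⟩, fun i => hkB (a i) (mem_image_of_mem a (mem_univ i))⟩)
  have hFne : F.Nonempty := by
    by_contra hcon
    rw [not_nonempty_iff_eq_empty] at hcon
    have := hF (Set.mem_univ (fun _ => (0 : UnitAddCircle)))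
    rw [hcon] at this
    simp at this
  set p := F.card with hp
  have hppos : 0 < p := hFne.card_pos
  let e := F.equivFin
  let n : ℕ → ℤ := fun j => if h : j < p then ((e.symm ⟨j, h⟩ : F) : P) else 0
  have hnP : ∀ j < p, n j ∈ P := by
    intro j hj
    simp only [n, dif_pos hj]
    exact ((e.symm ⟨j, hj⟩ : F) : P).2
  have hFSZ : FSZ {k | ∀ j < p, n j + k ∈ E} := by
    have h := hrich (F.image (fun n : P => (n : ℤ))) (by
      intro n hn
      rw [mem_image] at hn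
      obtain ⟨n', _, rfl⟩ := hn
      exact n'.2)
    intro r
    obtain ⟨k, hk, hkE⟩ := h r
    refine ⟨k, hk, ?_⟩
    intro A hA j hj
    apply hkE A hA
    rw [mem_image]
    refine ⟨((e.symm ⟨j, hj⟩ : F) : P), (e.symm ⟨j, hj⟩).2, ?_⟩
    simp only [n, dif_pos hj]
  obtain ⟨u, hu, hu2, hu3⟩ := UP_of_FSZ E p (R ^ mm) hppos (by positivity) n
    (fun j hj => hPE (hnP j hj)) (fun j hj h0 => hP0 (h0 ▸ hnP j hj)) hFSZ
  refine ⟨u, hu, hu2, ?_⟩
  intro l hl
  -- choose j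
  have hmem := hF (Set.mem_univ (fun i : Fin mm => l.get (Fin.cast hl.symm i)))
  rw [Set.mem_iUnion₂] at hmem
  obtain ⟨ν, hνF, hν⟩ := hmem
  set j : ℕ := ((e ⟨ν, hνF⟩ : Fin p) : ℕ) with hj
  have hjp : j < p := (e ⟨ν, hνF⟩ : Fin p).2
  have hnj : n j = (ν : ℤ) := by
    simp only [n, dif_pos hjp]
    have : (⟨j, hjp⟩ : Fin p) = e ⟨ν, hνF⟩ := Fin.ext rfl
    rw [this, Equiv.symm_apply_apply]
  have hla : ∀ a ∈ l, ‖n j • a‖ ≤ δ := by
    intro a ha
    obtain ⟨i, rfl⟩ := List.get_of_mem ha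
    rw [hnj]
    have := hν (Fin.cast hl i)
    exact this.le
  have hbox := Box_small R l (n j) δ hδ.le hla
  have hcard : (Box R l).card ≤ R ^ mm := by
    rw [← hl]; exact Box_card R l
  let eb := (Box R l).equivFin
  have hbnd : 2 * Real.pi * ((l.length : ℝ) * (R * δ)) ≤ 1 / 4 := by
    rw [hl, hδd]
    have hpi := Real.pi_lt_d2
    have hpi0 := Real.pi_pos
    have h1 : (mm : ℝ) * (R * (1 / (32 * (mm * R + 1)))) ≤ 1 / 32 := by
      have : (mm : ℝ) * (R * (1 / (32 * (mm * R + 1)))) = (mm * R) / (32 * (mm * R + 1)) := by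
        field_simp
      rw [this, div_le_div_iff₀ (by positivity) (by norm_num)]
      have : (0 : ℝ) ≤ mm * R := by positivity
      nlinarith
    nlinarith
  obtain ⟨x, θ, hθ, hx⟩ := hu3 j hjp (fun i => if h : (i : ℕ) < (Box R l).card then
      ((eb.symm ⟨i, h⟩ : Box R l) : UnitAddCircle) else 0) (by
    intro i
    by_cases hi : (i : ℕ) < (Box R l).card
    · simp only [dif_pos hi]
      refine (norm_fourier_sub_one _ _).trans (le_trans ?_ hbnd)
      rw [smul_neg, norm_neg]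
      have := hbox _ (eb.symm ⟨i, hi⟩).2
      gcongr
    · simp only [dif_neg hi, neg_zero]
      simp)
  refine ⟨x, θ, hθ, ?_⟩
  intro z hz
  have hi := (eb ⟨z, hz⟩).2
  have := hx ⟨(eb ⟨z, hz⟩ : ℕ), lt_of_lt_of_le hi hcard⟩
  simp only [dif_pos hi, Fin.eta, Equiv.symm_apply_apply] at this
  exact this

theorem locally_rich_fail (E : Set ℤ) (hE : LocallyRich E)
    (hcl : ∀ (S : Finset UnitAddCircle) (δ : ℝ), 0 < δ → ∃ k ∈ E, k ∈ Bohr S δ ∧ k ≠ 0) :
    ¬ AutomaticContinuity E := by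
  classical
  have hor : (∀ (S : Finset UnitAddCircle) (δ : ℝ), 0 < δ → ∃ k ∈ E, k ∈ Bohr S δ ∧ 0 < k) ∨
      (∀ (S : Finset UnitAddCircle) (δ : ℝ), 0 < δ → ∃ k ∈ E, k ∈ Bohr S δ ∧ k < 0) := by
    by_contra hcon
    push Not at hcon
    obtain ⟨⟨S1, δ1, hδ1, h1⟩, ⟨S2, δ2, hδ2, h2⟩⟩ := hcon
    obtain ⟨k, hk, hkB, hk0⟩ := hcl (S1 ∪ S2) (min δ1 δ2) (lt_min hδ1 hδ2)
    have a1 := h1 k hk (Bohr_mono subset_union_left (min_le_left _ _) hkB)
    have a2 := h2 k hk (Bohr_mono subset_union_right (min_le_right _ _) hkB)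
    omega
  apply not_AC_gen
  intro mm R hR
  have key : ∀ P : Set ℤ, P ⊆ E → ((∀ n ∈ P, 0 < n) ∨ (∀ n ∈ P, n < 0)) →
      (∀ F : Finset ℤ, (∀ n ∈ F, n ∈ P) → FSZ {k | ∀ n ∈ F, n + k ∈ E}) := by
    intro P hPE hsgn F hF r
    obtain ⟨k, hk, hkE⟩ := hE F (fun n hn => hPE (hF n hn)) (by
      rcases hsgn with h | h
      · exact Or.inl (fun n hn => h n (hF n hn))
      · exact Or.inr (fun n hn => h n (hF n hn))) r
    exact ⟨k, hk, fun A _ n hn => hkE n hn A⟩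
  rcases hor with hor | hor
  · apply loc_univ E (E ∩ {k | 0 < k}) Set.inter_subset_left (fun h => lt_irrefl (0 : ℤ) h.2)
      (key _ Set.inter_subset_left (Or.inl (fun n hn => hn.2))) _ mm R hR
    intro S δ hδ
    obtain ⟨k, hk, hkB, hk0⟩ := hor S δ hδ
    exact ⟨k, ⟨hk, hk0⟩, hkB⟩
  · apply loc_univ E (E ∩ {k | k < 0}) Set.inter_subset_left (fun h => lt_irrefl (0 : ℤ) h.2)
      (key _ Set.inter_subset_left (Or.inr (fun n hn => hn.2))) _ mm R hR
    intro S δ hδ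
    obtain ⟨k, hk, hkB, hk0⟩ := hor S δ hδ
    exact ⟨k, ⟨hk, hk0⟩, hkB⟩

/-- classification of the locally rich sets -/
theorem locally_rich_iff (E : Set ℤ) (hE : LocallyRich E) :
    AutomaticContinuity E ↔
      ∃ (S : Finset UnitAddCircle) (δ : ℝ), 0 < δ ∧ ∀ k ∈ E, k ∈ Bohr S δ → k = 0 := by
  constructor
  · intro hAC
    by_contra hcon
    push Not at hcon
    exact locally_rich_fail E hE hcon hAC
  · rintro ⟨S, δ, hδ, h⟩
    have hmain := (Pool.Agent.Results.MP_eb9c50_an.SidonNearZero.result).1 E S δ hδ (by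
      intro f hf
      apply summable_of_ne_finset_zero (s := {0})
      intro k hk
      rw [norm_eq_zero]
      apply hf k
      rintro ⟨hkE, hkB⟩
      apply hk
      rw [mem_singleton]
      exact h k hkE hkB)
    exact hmain

end Pool.Agent.H681R3.TI
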