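import Pool.Agent.H681R3.TI.Gfun

set_option autoImplicit false

namespace Pool.Agent.H681R3.TI
open Finset

theorem prod_mem (ρ : ℝ) (K0 : ℕ) (m : ℕ → ℕ) (K : ℕ) (n : ℕ) :
    (∏ i ∈ range n, G ρ K0 m (i * K) K) - (((1 - ck ρ 0 : ℝ) : ℂ) ^ n) • (1 : CT)
      ∈ M0 m (range (n * K)) := by
  induction n with
  | zero =>
    simp
  | succ n ih =>
    rw [prod_range_succ, pow_succ]
    have hd : Disjoint (range (n * K)) (Ico (n * K) (n * K + K)) := by
      rw [disjoint_left]
      intro a ha hb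
      rw [mem_range] at ha
      rw [mem_Ico] at hb
      omega
    have h := X_mul m hd ih (G_mem ρ K0 m (n * K) K)
    refine M0_mono m ?_ h
    intro a ha
    rw [mem_union, mem_range, mem_Ico] at ha
    rw [mem_range]
    have : (n + 1) * K = n * K + K := by ring
    omega

theorem norm_toCircle_sub_one (u : UnitAddCircle) : ‖(u.toCircle : ℂ) - 1‖ ≤ 2 * Real.pi * ‖u‖ := by
  obtain ⟨r, rfl⟩ : ∃ r : ℝ, (r : UnitAddCircle) = u := QuotientAddGroup.mk_surjective u
  rw [UnitAddCircle.norm_eq]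
  have e : (r : UnitAddCircle) = ((r - round r : ℝ) : UnitAddCircle) := by
    rw [AddCircle.coe_sub]
    have : ((round r : ℝ) : UnitAddCircle) = 0 := by
      rw [AddCircle.coe_eq_zero_iff]
      exact ⟨round r, by simp⟩
    rw [this, sub_zero]
  rw [e, AddCircle.toCircle_apply_mk]
  rw [Circle.coe_exp]
  have h := Real.norm_exp_I_mul_ofReal_sub_one_le (x := 2 * Real.pi / 1 * (r - round r))
  rw [mul_comm Complex.I] at h
  refine h.trans ?_
  rw [Real.norm_eq_abs, abs_mul, div_one, abs_of_pos (by positivity)]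

theorem norm_fourier_sub_one (n : ℤ) (z : UnitAddCircle) :
    ‖(fourier n : CT) z - 1‖ ≤ 2 * Real.pi * ‖n • z‖ := by
  rw [fourier_apply]
  exact norm_toCircle_sub_one _

theorem univ_fun (s : ℕ) (hs : 0 < s) : ∃ (M Q : ℕ), 0 < Q ∧ ∀ m : ℕ → ℕ, (∀ j, 0 < m j) →
    (∀ j, j + 1 < M → (Q : ℝ) * m j ≤ m (j + 1)) →
    ∃ g ∈ M0 m (range M), (∀ t, ‖g t‖ ≤ 3) ∧
      ∀ y : Fin s → UnitAddCircle, ∃ x, ∀ i, 1 / 2 ≤ (g (x + y i)).re := by
  have hs' : (0 : ℝ) < s := by exact_mod_cast hs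
  have hs1 : (1 : ℝ) ≤ s := by exact_mod_cast hs
  set ρ : ℝ := 1 / (4 * s) with hρd
  have hρ : 0 < ρ := by positivity
  set δ : ℝ := 1 / (16 * s) with hδd
  have hδ : 0 < δ := by positivity
  have hr1 : (1 + ρ)⁻¹ < 1 := by
    apply inv_lt_one_of_one_lt₀
    linarith
  obtain ⟨K0, hK0⟩ := exists_pow_lt_of_lt_one (show (0 : ℝ) < δ / 2 by positivity) hr1
  have hK0' : ((1 + ρ)⁻¹) ^ (K0 + 1) ≤ δ / 2 := by
    refine le_trans ?_ hK0.le
    exact pow_le_pow_of_le_one (by positivity) hr1.le (Nat.le_succ _)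
  obtain ⟨K, hK⟩ := exists_nat_gt ((K0 : ℝ) ^ 2 / (δ / 2))
  have hKpos' : (0 : ℝ) < K := lt_of_le_of_lt (by positivity) hK
  have hKpos : 0 < K := by exact_mod_cast hKpos'
  have hKd : (K0 : ℝ) ^ 2 / K ≤ δ / 2 := by
    rw [div_lt_iff₀ (by positivity)] at hK
    rw [div_le_iff₀ hKpos']
    linarith
  have herr : (K0 : ℝ) ^ 2 / K + ((1 + ρ)⁻¹) ^ (K0 + 1) ≤ δ := by linarith
  set τ : ℝ := 1 / (512 * s) with hτd
  have hτ : 0 < τ := by positivity
  refine ⟨s * K, 512 * s, by positivity, ?_⟩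
  intro m hm hl
  set c : ℝ := 1 - ck ρ 0 with hc
  set P : CT := ∏ i ∈ range s, G ρ K0 m (i * K) K with hP
  have hPt : ∀ t, P t = ∏ i ∈ range s, G ρ K0 m (i * K) K t := by
    intro t
    rw [hP, ContinuousMap.prod_apply]
  -- (1+δ)^s ≤ 2
  have hpow : (1 + δ) ^ s ≤ 2 := by
    have h1 : (1 + δ) ^ s ≤ Real.exp (s * δ) := by
      rw [mul_comm, Real.exp_mul, Real.rpow_natCast]
      apply pow_le_pow_left₀ (by positivity)
      have := Real.add_one_le_exp δ
      linarith
    have h2 : (s : ℝ) * δ = 1 / 16 := by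
      rw [hδd]; field_simp
    rw [h2] at h1
    have h3 : Real.exp (1 / 16) ≤ Real.exp (1 / 2) := Real.exp_le_exp.mpr (by norm_num)
    have h4 : Real.exp (1 / 2) ^ 2 = Real.exp 1 := by
      rw [← Real.exp_nat_mul]; norm_num
    have h5 := Real.exp_one_lt_d9
    have h6 : Real.exp (1 / 2) ≤ 2 := by
      by_contra hcon
      push Not at hcon
      nlinarith
    linarith
  have hck : ck ρ 0 ≤ ρ := by
    unfold ck
    rw [zero_add, pow_one]
    nlinarith
  have hck0 : 0 ≤ ck ρ 0 := ck_nonneg hρ 0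
  have hρ1 : ρ ≤ 1 / 4 := by
    rw [hρd, div_le_div_iff₀ (by positivity) (by norm_num)]
    linarith
  have hc0 : 0 ≤ c := by linarith
  have hc1 : c ≤ 1 := by linarith
  have hcs : 3 / 4 ≤ c ^ s := by
    have h1 := one_add_mul_le_pow (a := -(ck ρ 0)) (by linarith) s
    have h2 : (1 : ℝ) + -(ck ρ 0) = c := by rw [hc]; ring
    rw [h2] at h1
    have h3 : (s : ℝ) * ck ρ 0 ≤ 1 / 4 := by
      calc (s : ℝ) * ck ρ 0 ≤ s * ρ := by gcongr
        _ = 1 / 4 := by rw [hρd]; field_simp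
    linarith
  refine ⟨(((c : ℝ) : ℂ) ^ s) • (1 : CT) - P, ?_, ?_, ?_⟩
  · have h := prod_mem ρ K0 m K s
    have := Submodule.neg_mem _ h
    rw [neg_sub] at this
    exact this
  · intro t
    rw [ContinuousMap.sub_apply, ContinuousMap.smul_apply, ContinuousMap.one_apply, smul_eq_mul,
      mul_one]
    refine (norm_sub_le _ _).trans ?_
    have h1 : ‖((c : ℝ) : ℂ) ^ s‖ ≤ 1 := by
      rw [norm_pow, Complex.norm_real, Real.norm_eq_abs, abs_of_nonneg hc0]
      exact pow_le_one₀ hc0 hc1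
    have h2 : ‖P t‖ ≤ 2 := by
      rw [hPt, norm_prod]
      refine le_trans ?_ hpow
      calc ∏ i ∈ range s, ‖G ρ K0 m (i * K) K t‖ ≤ ∏ i ∈ range s, (1 + δ) :=
            prod_le_prod (fun i _ => norm_nonneg _)
              (fun i _ => G_norm hρ K0 m (i * K) K hKpos herr t)
        _ = (1 + δ) ^ s := by simp
    linarith
  · intro y
    have hτ1 : τ ≤ 1 / 2 := by
      rw [hτd, div_le_div_iff₀ (by positivity) (by norm_num)]
      linarith
    obtain ⟨x, hx⟩ := kron ((512 * s : ℕ) : ℝ) τ hτ hτ1 (by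
      rw [hτd]; push_cast; rw [one_div, inv_mul_cancel₀ (by positivity)]) (s * K) m hm hl
      (fun j => if h : j / K < s then - (m j • y ⟨j / K, h⟩) else 0)
    refine ⟨x, ?_⟩
    intro i
    rw [ContinuousMap.sub_apply, ContinuousMap.smul_apply, ContinuousMap.one_apply, smul_eq_mul,
      mul_one, Complex.sub_re]
    have hre : (((c : ℝ) : ℂ) ^ s).re = c ^ s := by
      rw [← Complex.ofReal_pow, Complex.ofReal_re]
    rw [hre]
    have hGi : ‖G ρ K0 m ((i : ℕ) * K) K (x + y i)‖ ≤ 1 / 8 := by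
      have h := G_small hρ K0 m ((i : ℕ) * K) K hKpos herr (x + y i) (2 * Real.pi * τ) (by
        intro j
        refine (norm_fourier_sub_one _ _).trans ?_
        have hj : (i : ℕ) * K + j < s * K := by
          have h1 := i.2
          have h2 := j.2
          calc (i : ℕ) * K + j < i * K + K := by omega
            _ = (i + 1) * K := by ring
            _ ≤ s * K := Nat.mul_le_mul_right _ (by omega)
        have hdiv : ((i : ℕ) * K + j) / K = i := by
          rw [mul_comm, Nat.mul_add_div hKpos, Nat.div_eq_of_lt j.2, add_zero]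
        have hh := hx _ hj
        simp only [hdiv, Fin.is_lt, dite_true, Fin.eta] at hh
        have e : ((m ((i : ℕ) * K + j) : ℕ) : ℤ) • (x + y i) =
            m ((i : ℕ) * K + j) • x - -(m ((i : ℕ) * K + j) • y i) := by
          rw [natCast_zsmul, smul_add, sub_neg_eq_add]
        rw [e]
        gcongr)
      refine h.trans ?_
      have hpi := Real.pi_lt_d2
      have h1 : 2 * Real.pi * τ / ρ ≤ 1 / 16 := by
        rw [div_le_iff₀ hρ, hτd, hρd]
        rw [← mul_div_assoc, ← mul_div_assoc]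
        rw [div_le_div_iff₀ (by positivity) (by positivity)]
        nlinarith
      have h2 : δ ≤ 1 / 16 := by
        rw [hδd, div_le_div_iff₀ (by positivity) (by norm_num)]
        linarith
      linarith
    have hPn : ‖P (x + y i)‖ ≤ 1 / 4 := by
      rw [hPt, norm_prod]
      rw [← mul_prod_erase (range s) _ (mem_range.mpr i.2)]
      have h1 : ∏ i' ∈ (range s).erase i, ‖G ρ K0 m (i' * K) K (x + y i)‖ ≤ 2 := by
        refine le_trans ?_ hpow
        calc ∏ i' ∈ (range s).erase i, ‖G ρ K0 m (i' * K) K (x + y i)‖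
            ≤ ∏ i' ∈ (range s).erase i, (1 + δ) :=
              prod_le_prod (fun i _ => norm_nonneg _)
                (fun i' _ => G_norm hρ K0 m (i' * K) K hKpos herr _)
          _ = (1 + δ) ^ (s - 1) := by
              rw [prod_const, card_erase_of_mem (mem_range.mpr i.2), card_range]
          _ ≤ (1 + δ) ^ s := pow_le_pow_right₀ (by linarith) (Nat.sub_le _ _)
      have h2 : 0 ≤ ∏ i' ∈ (range s).erase i, ‖G ρ K0 m (i' * K) K (x + y i)‖ :=
        prod_nonneg (fun _ _ => norm_nonneg _)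
      have h3 := norm_nonneg (G ρ K0 m ((i : ℕ) * K) K (x + y i))
      nlinarith
    have hPre : (P (x + y i)).re ≤ 1 / 4 := (Complex.re_le_norm _).trans hPn
    linarith

end Pool.Agent.H681R3.TI
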