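import Pool.Agent.H681R3.TI.Baire

set_option autoImplicit false

namespace Pool.Agent.H681R3.TI
open Finset Filter Topology

theorem tr_continuous : Continuous (fun p : UnitAddCircle × CT => tr p.1 p.2) := by
  apply ContinuousMap.continuous_of_continuous_uncurry
  show Continuous (fun q : (UnitAddCircle × CT) × UnitAddCircle => (q.1.2) (q.2 - q.1.1))
  fun_prop

theorem av_continuous (R : ℕ) : Continuous (fun p : UnitAddCircle × CT => av R p.1 p.2) := by
  simp only [av_apply]
  have h : Continuous (fun p : UnitAddCircle × CT => ∑ r ∈ range R, tr (r • p.1) p.2) := by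
    apply continuous_finsetSum
    intro r _
    have : Continuous (fun p : UnitAddCircle × CT => ((r • p.1, p.2) : UnitAddCircle × CT)) := by
      fun_prop
    exact tr_continuous.comp this
  exact (continuous_const_smul (1 / (R : ℂ))).comp h

theorem AL_continuous (R : ℕ) (m : ℕ) :
    Continuous (fun p : (Fin m → UnitAddCircle) × CT => AL R (List.ofFn p.1) p.2) := by
  induction m with
  | zero =>
    simp only [List.ofFn_zero, AL]
    exact continuous_snd
  | succ m ih =>
    have e : (fun p : (Fin (m + 1) → UnitAddCircle) × CT => AL R (List.ofFn p.1) p.2) =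
        fun p => av R (p.1 0) (AL R (List.ofFn (fun i => p.1 i.succ)) p.2) := by
      funext p
      rw [List.ofFn_succ]
      rfl
    rw [e]
    have h1 : Continuous (fun p : (Fin (m + 1) → UnitAddCircle) × CT =>
        ((fun i : Fin m => p.1 i.succ, p.2) : (Fin m → UnitAddCircle) × CT)) := by
      fun_prop
    have h2 := ih.comp h1
    have h3 : Continuous (fun p : (Fin (m + 1) → UnitAddCircle) × CT =>
        ((p.1 0, AL R (List.ofFn (fun i => p.1 i.succ)) p.2) : UnitAddCircle × CT)) := by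
      apply Continuous.prodMk _ h2
      fun_prop
    exact Continuous.comp (g := fun p : UnitAddCircle × CT => av R p.1 p.2)
      (f := fun p : (Fin (m + 1) → UnitAddCircle) × CT =>
        ((p.1 0, AL R (List.ofFn (fun i => p.1 i.succ)) p.2) : UnitAddCircle × CT))
      (av_continuous R) h3

theorem CE_closed (E : Set ℤ) : IsClosed (CE E : Set CT) := by
  have : (CE E : Set CT) = ⋂ k ∈ Eᶜ, {f : CT | fcL k f = 0} := by
    ext f
    simp only [SetLike.mem_coe, mem_CE, Set.mem_iInter, Set.mem_ofPred_eq, Set.mem_compl_iff]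
  rw [this]
  apply isClosed_biInter
  intro k _
  exact isClosed_eq (fcL k).continuous continuous_const

/-- the closed sets of the Baire argument -/
def SS (E : Set ℤ) (p : ℕ × ℕ) : Set (CE E) :=
  {h | ∃ a : Fin p.1 → UnitAddCircle, ∀ R : ℕ, 0 < R →
    ‖AL R (List.ofFn a) (h : CT)‖ ≤ (p.2 : ℝ) / R}

theorem SS_closed (E : Set ℤ) (p : ℕ × ℕ) : IsClosed (SS E p) := by
  have hC : IsClosed {q : (Fin p.1 → UnitAddCircle) × (CE E) | ∀ R : ℕ, 0 < R →
      ‖AL R (List.ofFn q.1) (q.2 : CT)‖ ≤ (p.2 : ℝ) / R} := by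
    have e : {q : (Fin p.1 → UnitAddCircle) × (CE E) | ∀ R : ℕ, 0 < R →
      ‖AL R (List.ofFn q.1) (q.2 : CT)‖ ≤ (p.2 : ℝ) / R} =
      ⋂ (R : ℕ) (_ : 0 < R), {q : (Fin p.1 → UnitAddCircle) × (CE E) |
        ‖AL R (List.ofFn q.1) (q.2 : CT)‖ ≤ (p.2 : ℝ) / R} := by
      ext q
      simp only [Set.mem_ofPred_eq, Set.mem_iInter]
    rw [e]
    apply isClosed_iInter
    intro R
    apply isClosed_iInter
    intro _
    apply isClosed_le _ continuous_const
    apply Continuous.norm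
    have h1 : Continuous (fun q : (Fin p.1 → UnitAddCircle) × (CE E) =>
        ((q.1, (q.2 : CT)) : (Fin p.1 → UnitAddCircle) × CT)) := by
      fun_prop
    exact (AL_continuous R p.1).comp h1
  have := isClosedMap_snd_of_compactSpace (X := (Fin p.1 → UnitAddCircle)) (Y := (CE E)) _ hC
  convert this using 1
  ext h
  simp only [SS, Set.mem_ofPred_eq, Set.mem_image, Prod.exists, exists_eq_right]

/-- Baire: if all mean zero functions have bounded averages, then uniformly so. -/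
theorem baire_uniform (E : Set ℤ) (hcov : ∀ h ∈ CE E, ∃ (l : List UnitAddCircle) (K : ℝ),
    0 ≤ K ∧ BA l K h) :
    ∃ (m : ℕ) (K ε : ℝ), 0 < ε ∧ 0 ≤ K ∧ ∀ g ∈ CE E, ‖g‖ < ε →
      ∃ l : List UnitAddCircle, l.length = m ∧ BA l K g := by
  have : CompleteSpace (CE E) := (CE_closed E).completeSpace_coe
  have hU : (⋃ p : ℕ × ℕ, SS E p) = Set.univ := by
    rw [Set.eq_univ_iff_forall]
    intro h
    obtain ⟨l, K, hK, hl⟩ := hcov h.1 h.2
    rw [Set.mem_iUnion]
    refine ⟨(l.length, ⌈K⌉₊), l.get, ?_⟩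
    intro R hR
    rw [List.ofFn_get]
    refine (hl R hR).trans ?_
    have := Nat.le_ceil K
    gcongr
  obtain ⟨p, h0, hh0⟩ := nonempty_interior_of_iUnion_of_closed (SS_closed E) hU
  rw [mem_interior_iff_mem_nhds, Metric.mem_nhds_iff] at hh0
  obtain ⟨ε, hε, hball⟩ := hh0
  refine ⟨p.1 + p.1, p.2 + p.2, ε, hε, by positivity, ?_⟩
  intro g hg hgε
  have h1 : h0 ∈ SS E p := hball (Metric.mem_ball_self hε)
  have h2 : h0 + ⟨g, hg⟩ ∈ SS E p := by
    apply hball
    rw [Metric.mem_ball, Subtype.dist_eq, dist_eq_norm]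
    have e0 : ((h0 + ⟨g, hg⟩ : CE E) : CT) - (h0 : CT) = g := by
      rw [Submodule.coe_add, add_sub_cancel_left]
    rw [e0]
    exact hgε
  obtain ⟨a, ha⟩ := h1
  obtain ⟨b, hb⟩ := h2
  refine ⟨List.ofFn b ++ List.ofFn a, by simp, ?_⟩
  intro R hR
  have e : g = ((h0 + ⟨g, hg⟩ : CE E) : CT) - (h0 : CT) := by
    rw [Submodule.coe_add, add_sub_cancel_left]
  have hA : BA (List.ofFn b ++ List.ofFn a) p.2 ((h0 + ⟨g, hg⟩ : CE E) : CT) :=
    BA_append_left _ _ _ _ hb
  have hB : BA (List.ofFn b ++ List.ofFn a) p.2 (h0 : CT) := BA_append_right _ _ _ _ ha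
  rw [e, AL_sub, add_div]
  exact (norm_sub_le _ _).trans (add_le_add (hA R hR) (hB R hR))

/-- in an FS-rich `E` not every function of `C_E` has bounded averages. -/
theorem not_cov (E : Set ℤ) (hE : FSRich E) : ¬ ∀ h ∈ CE E, fcL 0 h = 0 →
    ∃ (l : List UnitAddCircle) (K : ℝ), 0 ≤ K ∧ BA l K h := by
  intro hcov
  have hE' : FSRich (E \ {0}) := by
    intro r
    obtain ⟨n, hn, hnE⟩ := hE r
    refine ⟨n, hn, fun A hA => ⟨hnE A hA, ?_⟩⟩
    rw [Set.mem_singleton_iff]
    have : 0 < ∑ i ∈ A, n i := sum_pos (fun i _ => hn i) hA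
    omega
  obtain ⟨m, K, ε, hε, hK, hunif⟩ := baire_uniform (E \ {0}) (by
    intro h hh
    apply hcov h
    · rw [mem_CE] at *
      intro k hk
      exact hh k (fun hk' => hk hk'.1)
    · rw [mem_CE] at hh
      exact hh 0 (fun h => h.2 rfl))
  obtain ⟨R, hR⟩ := exists_nat_gt (8 * K / ε)
  have hRpos' : (0 : ℝ) < R := lt_of_le_of_lt (by positivity) hR
  have hRpos : 0 < R := by exact_mod_cast hRpos'
  obtain ⟨u, hu, hu0, hu3, huy⟩ := univ_CE (E \ {0}) hE' (R ^ m) (by positivity)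
  have hun : ‖u‖ ≤ 3 := by
    rw [ContinuousMap.norm_le _ (by norm_num)]
    exact hu3
  obtain ⟨l, hlm, hl⟩ := hunif (((ε / 4 : ℝ) : ℂ) • u) (Submodule.smul_mem _ _ hu) (by
    rw [norm_smul, Complex.norm_real, Real.norm_eq_abs, abs_of_pos (by positivity)]
    nlinarith)
  have h1 := hl R hRpos
  rw [AL_smul, norm_smul, Complex.norm_real, Real.norm_eq_abs, abs_of_pos (by positivity)] at h1
  -- enumerate the box
  have hcard : (Box R l).card ≤ R ^ m := by
    rw [← hlm]; exact Box_card R l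
  obtain ⟨x, hx⟩ : ∃ x, ∀ y ∈ Box R l, 1 / 2 ≤ (u (x - y)).re := by
    let e := (Box R l).equivFin
    obtain ⟨x, hx⟩ := huy (fun i => if h : (i : ℕ) < (Box R l).card then
      - ((e.symm ⟨i, h⟩ : Box R l) : UnitAddCircle) else 0)
    refine ⟨x, ?_⟩
    intro y hy
    have hi := (e ⟨y, hy⟩).2
    have := hx ⟨(e ⟨y, hy⟩ : ℕ), lt_of_lt_of_le hi hcard⟩
    simp only [hi, dite_true, Fin.eta, Equiv.symm_apply_apply] at this
    rw [sub_eq_add_neg]
    exact this
  have h2 := Box_avg R hRpos l u (1 / 2) x hx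
  have h3 : 1 / 2 ≤ ‖AL R l u‖ := by
    refine h2.trans ((Complex.re_le_norm _).trans ?_)
    exact (AL R l u).norm_coe_le_norm x
  have h4 : ε / 8 ≤ K / R := by
    calc ε / 8 = ε / 4 * (1 / 2) := by ring
      _ ≤ ε / 4 * ‖AL R l u‖ := by gcongr
      _ ≤ K / R := h1
  rw [div_lt_iff₀ hε] at hR
  rw [le_div_iff₀ hRpos'] at h4
  nlinarith

end Pool.Agent.H681R3.TI
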