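import Pool.Agent.H681R3.TI.Kron

set_option autoImplicit false

/-! The universal function: spectrum in the finite sums of a lacunary system, bounded by 3,
mean zero, and close to 1 on a translate of any given `s` points. -/

namespace Pool.Agent.H681R3.TI
open Finset

abbrev CT := C(UnitAddCircle, ℂ)

/-- span of the characters whose frequencies are nonempty subset sums of `m` over `S`. -/
noncomputable def M0 (m : ℕ → ℕ) (S : Finset ℕ) : Submodule ℂ CT :=
  Submodule.span ℂ {g | ∃ A : Finset ℕ, A ⊆ S ∧ A.Nonempty ∧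
    g = fourier ((∑ j ∈ A, m j : ℕ) : ℤ)}

theorem M0_mono (m : ℕ → ℕ) {S S' : Finset ℕ} (h : S ⊆ S') : M0 m S ≤ M0 m S' := by
  apply Submodule.span_mono
  rintro g ⟨A, hA, hne, rfl⟩
  exact ⟨A, hA.trans h, hne, rfl⟩

theorem fourier_mul_add (a b : ℤ) : (fourier a : CT) * fourier b = fourier (a + b) := by
  ext x
  simp

theorem M0_mul (m : ℕ → ℕ) {S S' : Finset ℕ} (hd : Disjoint S S') {f g : CT}
    (hf : f ∈ M0 m S) (hg : g ∈ M0 m S') : f * g ∈ M0 m (S ∪ S') := by
  unfold M0 at hf
  induction hf using Submodule.span_induction with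
  | mem f hf =>
    obtain ⟨A, hA, hne, rfl⟩ := hf
    unfold M0 at hg
    induction hg using Submodule.span_induction with
    | mem g hg =>
      obtain ⟨B, hB, hne', rfl⟩ := hg
      apply Submodule.subset_span
      refine ⟨A ∪ B, union_subset_union hA hB, hne.mono subset_union_left, ?_⟩
      rw [fourier_mul_add, sum_union (disjoint_of_subset_left hA (disjoint_of_subset_right hB hd))]
      push_cast
      rfl
    | zero => rw [mul_zero]; exact Submodule.zero_mem _
    | add x y _ _ hx hy => rw [mul_add]; exact Submodule.add_mem _ hx hy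
    | smul a x _ hx => rw [mul_smul_comm]; exact Submodule.smul_mem _ _ hx
  | zero => rw [zero_mul]; exact Submodule.zero_mem _
  | add x y _ _ hx hy => rw [add_mul]; exact Submodule.add_mem _ hx hy
  | smul a x _ hx => rw [smul_mul_assoc]; exact Submodule.smul_mem _ _ hx

theorem X_mul (m : ℕ → ℕ) {S S' : Finset ℕ} (hd : Disjoint S S') {F F' : CT} {c c' : ℂ}
    (hF : F - c • (1 : CT) ∈ M0 m S) (hF' : F' - c' • (1 : CT) ∈ M0 m S') :
    F * F' - (c * c') • (1 : CT) ∈ M0 m (S ∪ S') := by
  have e : F * F' - (c * c') • (1 : CT) =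
      (F - c • (1 : CT)) * (F' - c' • (1 : CT)) + c • (F' - c' • (1 : CT))
        + c' • (F - c • (1 : CT)) := by
    ext x
    simp
    ring
  rw [e]
  refine Submodule.add_mem _ (Submodule.add_mem _ (M0_mul m hd hF hF') ?_) ?_
  · exact Submodule.smul_mem _ _ (M0_mono m subset_union_right hF')
  · exact Submodule.smul_mem _ _ (M0_mono m subset_union_left hF)

/-- injective part of the `k`-th power of the mean of `K` characters. -/
noncomputable def W (m : ℕ → ℕ) (b K k : ℕ) : CT :=
  (1 / (K : ℂ) ^ k) • ∑ p : Fin k → Fin K with Function.Injective p,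
    (fourier ((∑ i, m (b + p i) : ℕ) : ℤ) : CT)

theorem W_mem (m : ℕ → ℕ) (b K k : ℕ) (hk : 0 < k) : W m b K k ∈ M0 m (Ico b (b + K)) := by
  unfold W
  apply Submodule.smul_mem
  apply Submodule.sum_mem
  intro p hp
  rw [mem_filter] at hp
  apply Submodule.subset_span
  refine ⟨univ.image (fun i : Fin k => b + (p i : ℕ)), ?_, ?_, ?_⟩
  · intro j hj
    rw [mem_image] at hj
    obtain ⟨i, _, rfl⟩ := hj
    rw [mem_Ico]
    have := (p i).2
    omega
  · refine ⟨b + (p ⟨0, hk⟩ : ℕ), ?_⟩
    rw [mem_image]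
    exact ⟨_, mem_univ _, rfl⟩
  · rw [sum_image]
    intro i _ j _ hij
    apply hp.2
    apply Fin.ext
    simpa using hij

/-- mean of `K` characters -/
noncomputable def wm (m : ℕ → ℕ) (b K : ℕ) (t : UnitAddCircle) : ℂ :=
  (1 / (K : ℂ)) * ∑ j : Fin K, fourier (m (b + j) : ℤ) t

theorem norm_fourier (n : ℤ) (t : UnitAddCircle) : ‖(fourier n : CT) t‖ = 1 := by
  rw [fourier_apply]
  exact Circle.norm_coe _

theorem wm_norm (m : ℕ → ℕ) (b K : ℕ) (t : UnitAddCircle) : ‖wm m b K t‖ ≤ 1 := by
  unfold wm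
  rcases Nat.eq_zero_or_pos K with h | h
  · subst h; simp
  · have hK : (0 : ℝ) < K := by exact_mod_cast h
    rw [norm_mul]
    have h1 : ‖∑ j : Fin K, (fourier (m (b + j) : ℤ) : CT) t‖ ≤ K := by
      refine (norm_sum_le _ _).trans ?_
      simp only [norm_fourier]
      simp
    have h2 : ‖(1 / (K : ℂ))‖ = 1 / K := by
      rw [norm_div, norm_one, Complex.norm_natCast]
    rw [h2]
    calc 1 / (K : ℝ) * _ ≤ 1 / (K : ℝ) * K := by gcongr
      _ = 1 := by field_simp

theorem fourier_sum (k : ℕ) (a : Fin k → ℕ) (t : UnitAddCircle) :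
    (fourier ((∑ i, a i : ℕ) : ℤ) : CT) t = ∏ i, (fourier (a i : ℤ) : CT) t := by
  induction k with
  | zero => simp
  | succ k ih =>
    rw [Fin.sum_univ_succ, Fin.prod_univ_succ]
    push_cast
    rw [fourier_add]
    congr 1
    have := ih (fun i => a i.succ)
    push_cast at this
    exact this

theorem wm_pow (m : ℕ → ℕ) (b K k : ℕ) (t : UnitAddCircle) :
    wm m b K t ^ k = (1 / (K : ℂ) ^ k) * ∑ p : Fin k → Fin K,
      (fourier ((∑ i, m (b + p i) : ℕ) : ℤ) : CT) t := by
  unfold wm
  rw [mul_pow, Fintype.sum_pow, one_div, one_div, inv_pow]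
  congr 1
  apply sum_congr rfl
  intro p _
  rw [fourier_sum]

theorem card_inj (k K : ℕ) :
    (univ.filter (fun p : Fin k → Fin K => Function.Injective p)).card = K.descFactorial k := by
  have h := Fintype.card_embedding_eq (α := Fin k) (β := Fin K)
  rw [Fintype.card_fin, Fintype.card_fin] at h
  rw [← h]
  rw [← Fintype.card_subtype]
  exact Fintype.card_congr (Equiv.subtypeInjectiveEquivEmbedding _ _)

theorem card_noninj (k K : ℕ) (hK : 0 < K) :
    ((univ.filter (fun p : Fin k → Fin K => ¬ Function.Injective p)).card : ℝ) / (K : ℝ) ^ k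
      ≤ (k : ℝ) ^ 2 / K := by
  have hK' : (0 : ℝ) < K := by exact_mod_cast hK
  rcases Nat.lt_or_ge K k with hlt | hge
  · -- k > K : trivial bound
    have h1 : ((univ.filter (fun p : Fin k → Fin K => ¬ Function.Injective p)).card : ℝ)
        ≤ (K : ℝ) ^ k := by
      have := card_le_univ (univ.filter (fun p : Fin k → Fin K => ¬ Function.Injective p))
      rw [Fintype.card_fun, Fintype.card_fin, Fintype.card_fin] at this
      exact_mod_cast this
    have h2 : (1 : ℝ) ≤ (k : ℝ) ^ 2 / K := by
      rw [le_div_iff₀ hK', one_mul]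
      have h3 : (K : ℝ) ≤ k := by exact_mod_cast hlt.le
      have h4 : (1 : ℝ) ≤ k := by
        have : 1 ≤ k := by omega
        exact_mod_cast this
      nlinarith
    refine le_trans ?_ h2
    rw [div_le_one (by positivity)]
    exact h1
  · have hsum := card_filter_add_card_filter_not (s := (univ : Finset (Fin k → Fin K)))
      (fun p => Function.Injective p)
    rw [card_univ, Fintype.card_fun, Fintype.card_fin, Fintype.card_fin, card_inj] at hsum
    have hdesc : (K + 1 - k) ^ k ≤ K.descFactorial k := Nat.pow_sub_le_descFactorial K k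
    have h1 : ((univ.filter (fun p : Fin k → Fin K => ¬ Function.Injective p)).card : ℝ)
        ≤ (K : ℝ) ^ k - ((K : ℝ) - k) ^ k := by
      have e1 : ((univ.filter (fun p : Fin k → Fin K => ¬ Function.Injective p)).card : ℝ)
          = (K : ℝ) ^ k - (K.descFactorial k : ℝ) := by
        have : ((K.descFactorial k : ℕ) : ℝ) +
          ((univ.filter (fun p : Fin k → Fin K => ¬ Function.Injective p)).card : ℝ)
            = (K : ℝ) ^ k := by exact_mod_cast hsum
        linarith
      rw [e1]
      have e2 : ((K : ℝ) - k) ^ k ≤ ((K + 1 - k : ℕ) : ℝ) ^ k := by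
        have hk1 : (k : ℝ) ≤ K := by exact_mod_cast hge
        apply pow_le_pow_left₀ (by linarith)
        rw [Nat.cast_sub (by omega)]
        push_cast
        linarith
      have e3 : ((K + 1 - k : ℕ) : ℝ) ^ k ≤ (K.descFactorial k : ℝ) := by exact_mod_cast hdesc
      linarith
    have h2 : ((univ.filter (fun p : Fin k → Fin K => ¬ Function.Injective p)).card : ℝ) /
        (K : ℝ) ^ k ≤ 1 - (1 - (k : ℝ) / K) ^ k := by
      rw [div_le_iff₀ (by positivity)]
      have e : (1 - (1 - (k : ℝ) / K) ^ k) * (K : ℝ) ^ k = (K : ℝ) ^ k - ((K : ℝ) - k) ^ k := by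
        rw [sub_mul, one_mul, ← mul_pow]
        congr 2
        field_simp
      rw [e]
      exact h1
    refine h2.trans ?_
    have hb := one_add_mul_le_pow (a := -((k : ℝ) / K)) (by
      have hk1 : (k : ℝ) / K ≤ 1 := by
        rw [div_le_one hK']; exact_mod_cast hge
      linarith) k
    have e : (k : ℝ) * -((k : ℝ) / K) = - ((k : ℝ) ^ 2 / K) := by ring
    rw [e] at hb
    have e2 : (1 : ℝ) + -((k : ℝ) / K) = 1 - (k : ℝ) / K := by ring
    rw [e2] at hb
    linarith

theorem W_close (m : ℕ → ℕ) (b K k : ℕ) (hK : 0 < K) (t : UnitAddCircle) :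
    ‖W m b K k t - wm m b K t ^ k‖ ≤ (k : ℝ) ^ 2 / K := by
  rw [wm_pow]
  unfold W
  rw [ContinuousMap.smul_apply, ContinuousMap.sum_apply, smul_eq_mul, ← mul_sub]
  rw [← sum_filter_add_sum_filter_not univ (fun p : Fin k → Fin K => Function.Injective p)
    (fun p => (fourier ((∑ i, m (b + p i) : ℕ) : ℤ) : CT) t)]
  rw [sub_add_cancel_left, norm_mul, norm_neg]
  refine le_trans ?_ (card_noninj k K hK)
  have h1 : ‖∑ p ∈ univ.filter (fun p : Fin k → Fin K => ¬ Function.Injective p),
      (fourier ((∑ i, m (b + p i) : ℕ) : ℤ) : CT) t‖ ≤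
      ((univ.filter (fun p : Fin k → Fin K => ¬ Function.Injective p)).card : ℝ) := by
    refine (norm_sum_le _ _).trans ?_
    simp only [norm_fourier]
    simp
  have h2 : ‖(1 / (K : ℂ) ^ k)‖ = 1 / (K : ℝ) ^ k := by
    rw [norm_div, norm_one, norm_pow, Complex.norm_natCast]
  rw [h2, one_div, div_eq_inv_mul]
  exact mul_le_mul_of_nonneg_left h1 (by positivity)

end Pool.Agent.H681R3.TI
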